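import Pool.Agent.N913.MT.F3

set_option autoImplicit false
set_option maxHeartbeats 4000000

/-!
# Positions for which prescribed shifts are killed by prescribed primes
-/

open Finset

namespace Pool.Agent.N688.NC

open Pool.Agent.N913.MT

/-- `A` has a square root `x` modulo `q` for which no `2 x + d`, `0 < |d| < H`, is divisible by `q` -/
def Good (q H : ℕ) (A : ℤ) : Prop :=
  ∃ x : ℤ, (q : ℤ) ∣ x ^ 2 - A ∧ ∀ d : ℤ, d ≠ 0 → |d| < H → ¬ (q : ℤ) ∣ 2 * x + d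

theorem Good.congr {q H : ℕ} {A A' : ℤ} (h : (q : ℤ) ∣ A - A') (hG : Good q H A) : Good q H A' := by
  obtain ⟨x, h1, h2⟩ := hG
  refine ⟨x, ?_, h2⟩
  have := dvd_add h1 h
  have e : x ^ 2 - A + (A - A') = x ^ 2 - A' := by ring
  rwa [e] at this

theorem kill {q H : ℕ} (hq : q.Prime) (hqH : H ≤ q) (s0 r0 t : ℕ) (ht : t < H)
    (hG : Good q H ((s0 : ℤ) ^ 2 + r0)) :
    ∃ i : ℕ, (q : ℤ) ∣ vv (i + t) (s0, r0) ∧ ∀ h : ℕ, h < H → h ≠ t → ¬ (q : ℤ) ∣ vv (i + h) (s0, r0) := by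
  obtain ⟨x, h1, h2⟩ := hG
  have hq0 : (q : ℤ) ≠ 0 := by exact_mod_cast hq.ne_zero
  have hqp : Prime (q : ℤ) := Nat.prime_iff_prime_int.1 hq
  set i : ℕ := ((x - s0 - t) % (q : ℤ)).toNat with hi
  have hiz : (i : ℤ) = (x - s0 - t) % (q : ℤ) := by
    rw [hi, Int.toNat_of_nonneg (Int.emod_nonneg _ hq0)]
  obtain ⟨w, hw⟩ : ∃ w : ℤ, (i : ℤ) = x - s0 - t + q * w := by
    refine ⟨-((x - s0 - t) / q), ?_⟩
    rw [hiz]
    have := Int.emod_add_mul_ediv (x - s0 - t) q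
    linarith
  have key : ∀ h : ℕ, (q : ℤ) ∣ vv (i + h) (s0, r0) ↔ (q : ℤ) ∣ ((h : ℤ) - t) * (2 * x + (h - t)) := by
    intro h
    have e : vv (i + h) (s0, r0) = ((h : ℤ) - t) * (2 * x + (h - t)) + (x ^ 2 - ((s0 : ℤ) ^ 2 + r0)) +
        q * (w * (2 * (x + (h - t)) + q * w)) := by
      unfold vv
      push_cast
      rw [hw]
      ring
    rw [e]
    constructor
    · intro h3
      have h4 := dvd_sub (dvd_sub h3 (Dvd.intro _ rfl : (q : ℤ) ∣ q * (w * (2 * (x + (h - t)) + q * w)))) h1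
      have e2 : ((h : ℤ) - t) * (2 * x + (h - t)) + (x ^ 2 - ((s0 : ℤ) ^ 2 + r0)) +
        q * (w * (2 * (x + (h - t)) + q * w)) - q * (w * (2 * (x + (h - t)) + q * w)) -
          (x ^ 2 - ((s0 : ℤ) ^ 2 + r0)) = ((h : ℤ) - t) * (2 * x + (h - t)) := by ring
      rwa [e2] at h4
    · intro h3
      exact dvd_add (dvd_add h3 h1) (Dvd.intro _ rfl)
  refine ⟨i, ?_, ?_⟩
  · rw [key]
    rw [sub_self, zero_mul]
    exact dvd_zero _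
  · intro h hh hne
    rw [key]
    intro h3
    have hd : ((h : ℤ) - t) ≠ 0 := by
      intro h4
      apply hne
      omega
    have hda : |(h : ℤ) - t| < H := by
      rw [abs_lt]
      constructor <;> omega
    rcases hqp.dvd_or_dvd h3 with h4 | h4
    · have h5 := Int.le_of_dvd (abs_pos.2 hd) ((dvd_abs _ _).2 h4)
      have : (H : ℤ) ≤ q := by exact_mod_cast hqH
      omega
    · exact h2 _ hd hda h4

/-- admissible base positions which kill the shifts of a set -/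
theorem exists_i0k {J : Type} [Fintype J] (h : J → ℕ) (z0 : ℕ)
    (hhs : ∀ p : ℕ, p.Prime → p ≤ 2 * Fintype.card J → ∀ j j', (p : ℤ) ∣ (h j : ℤ) - h j')
    (s0 r0 J0 H : ℕ) (hH : ∀ j, h j < H) (Kl : Finset ℕ) (hK : ∀ t ∈ Kl, t < H ∧ ∀ j, h j ≠ t)
    (q : ℕ → ℕ) (hq : ∀ t ∈ Kl, (q t).Prime ∧ H ≤ q t ∧ q t < z0 ∧ Good (q t) H ((s0 : ℤ) ^ 2 + r0))
    (hqi : Set.InjOn q Kl) :
    ∃ i0 : ℕ, J0 < i0 ∧ i0 ≤ J0 + Wz z0 ∧ (∀ m : ℕ, ∀ j,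
      (vn (Wz z0) (i0 + Wz z0 * m + h j) s0 r0).Coprime (Wz z0)) ∧
      ∀ t ∈ Kl, ∀ i : ℕ, i ≡ i0 [MOD Wz z0] → ((q t : ℕ) : ℤ) ∣ vv (i + t) (s0, r0) := by
  classical
  obtain ⟨P', hP'⟩ : ∃ P', P' = (range z0).filter Nat.Prime := ⟨_, rfl⟩
  have hpr : ∀ p ∈ P', p.Prime := fun p hp => by rw [hP'] at hp; exact (mem_filter.1 hp).2
  have hch : ∀ u : P', ∃ i : ℕ, (∀ j, ¬ ((u : ℕ) : ℤ) ∣ vv (i + h j) (s0, r0)) ∧
      ∀ t ∈ Kl, q t = (u : ℕ) → ((u : ℕ) : ℤ) ∣ vv (i + t) (s0, r0) := by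
    intro u
    by_cases hu : ∃ t ∈ Kl, q t = (u : ℕ)
    · obtain ⟨t, ht, htu⟩ := hu
      obtain ⟨g1, g2, g3, g4⟩ := hq t ht
      obtain ⟨i, hi1, hi2⟩ := kill g1 g2 s0 r0 t (hK t ht).1 g4
      rw [htu] at hi1 hi2
      refine ⟨i, fun j => hi2 (h j) (hH j) ((hK t ht).2 j), ?_⟩
      intro t' ht' htu'
      have : t' = t := hqi ht' ht (htu'.trans htu.symm)
      rw [this]
      exact hi1
    · obtain ⟨i, hi⟩ := good_res h u (hpr u u.2) (hhs u (hpr u u.2)) (s0, r0)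
      exact ⟨i, hi, fun t ht htu => absurd ⟨t, ht, htu⟩ hu⟩
  choose c hc hck using hch
  obtain ⟨a, b, hab⟩ := crtT hpr 1 (fun p hp h => (hpr p hp).one_lt.ne' (Nat.dvd_one.1 h)) 0 0
    (fun t => (c t, c t)) univ
  have hT : 1 * TT (univ : Finset P') = Wz z0 := by
    unfold TT Wz
    rw [one_mul, Finset.prod_coe_sort P' (fun p => p), hP']
  rw [hT] at hab
  have hW := Wz_pos z0
  obtain ⟨i0, h1, h2, h3⟩ : ∃ i0, J0 < i0 ∧ i0 ≤ J0 + Wz z0 ∧ i0 ≡ a [MOD Wz z0] := by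
    refine ⟨J0 + 1 + ((a + (Wz z0 - 1) * (J0 + 1)) % Wz z0), by omega, ?_, ?_⟩
    · have := Nat.mod_lt (a + (Wz z0 - 1) * (J0 + 1)) hW
      omega
    · have h4 : J0 + 1 + ((a + (Wz z0 - 1) * (J0 + 1)) % Wz z0) ≡
          J0 + 1 + (a + (Wz z0 - 1) * (J0 + 1)) [MOD Wz z0] := Nat.ModEq.add_left _ (Nat.mod_modEq _ _)
      have h5 : J0 + 1 + (a + (Wz z0 - 1) * (J0 + 1)) = a + Wz z0 * (J0 + 1) := by
        obtain ⟨w, hw⟩ : ∃ w, Wz z0 = w + 1 := ⟨Wz z0 - 1, by omega⟩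
        rw [hw, Nat.add_sub_cancel]
        ring
      rw [h5] at h4
      exact h4.trans (by unfold Nat.ModEq; simp)
  have hcl : ∀ p (hp : p ∈ P'), i0 ≡ c ⟨p, hp⟩ [MOD p] := by
    intro p hp
    have g4 := ((hab (a, b)).1 ⟨rfl, rfl⟩).2.2 ⟨p, hp⟩ (mem_univ _)
    have hpd : p ∣ Wz z0 := by
      rw [dvd_Wz z0 p (hpr p hp)]
      rw [hP'] at hp
      exact mem_range.1 (mem_filter.1 hp).1
    exact (h3.of_dvd hpd).trans g4.1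
  refine ⟨i0, h1, h2, fun m j => ?_, ?_⟩
  · rw [Nat.coprime_iff_gcd_eq_one]
    by_contra hne
    obtain ⟨p, hp, hpd⟩ := Nat.exists_prime_and_dvd hne
    have g1 := hpd.trans (Nat.gcd_dvd_left _ _)
    have g2 := hpd.trans (Nat.gcd_dvd_right _ _)
    have g3 := (dvd_vn _ _ _ _ p hW g2).1 g1
    have hpz := (dvd_Wz z0 p hp).1 g2
    have hpP : p ∈ P' := by rw [hP']; exact mem_filter.2 ⟨mem_range.2 hpz, hp⟩
    have g5 : i0 ≡ c ⟨p, hpP⟩ [MOD p] := hcl p hpP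
    apply hc ⟨p, hpP⟩ j
    apply (vv_shift p (i0 + Wz z0 * m + h j) (c ⟨p, hpP⟩ + h j) (s0, r0) _).1 g3
    have g6 : (p : ℤ) ∣ (i0 : ℤ) - c ⟨p, hpP⟩ := Nat.modEq_iff_dvd.1 g5.symm
    have g7 : (p : ℤ) ∣ (Wz z0 : ℤ) * m := Dvd.dvd.mul_right (by exact_mod_cast g2) _
    have e : ((i0 + Wz z0 * m + h j : ℕ) : ℤ) - ((c ⟨p, hpP⟩ + h j : ℕ) : ℤ) =
        (i0 - c ⟨p, hpP⟩) + Wz z0 * m := by push_cast; ring
    rw [e]
    exact dvd_add g6 g7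
  · intro t ht i hi
    obtain ⟨g1, g2, g3, g4⟩ := hq t ht
    have hpP : q t ∈ P' := by rw [hP']; exact mem_filter.2 ⟨mem_range.2 g3, g1⟩
    have hpd : q t ∣ Wz z0 := (dvd_Wz z0 (q t) g1).2 g3
    have g5 := hck ⟨q t, hpP⟩ t ht rfl
    have g6 : i ≡ c ⟨q t, hpP⟩ [MOD q t] := (hi.of_dvd hpd).trans (hcl _ hpP)
    apply (vv_shift (q t) (i + t) (c ⟨q t, hpP⟩ + t) (s0, r0) _).2 g5
    have g7 : ((q t : ℕ) : ℤ) ∣ (i : ℤ) - c ⟨q t, hpP⟩ := Nat.modEq_iff_dvd.1 g6.symm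
    have e : ((i + t : ℕ) : ℤ) - ((c ⟨q t, hpP⟩ + t : ℕ) : ℤ) = i - c ⟨q t, hpP⟩ := by push_cast; ring
    rw [e]
    exact g7

end Pool.Agent.N688.NC
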