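import Pool.Agent.N913.MG.L12

set_option autoImplicit false
set_option maxHeartbeats 4000000

/-!
# Positions for which prescribed shifts are killed by prescribed primes, families of linear forms
-/

open Finset

namespace Pool.Agent.N688.NC

open Pool.Agent.N913.MG
open Pool.Agent.N913.MT (Cl Wz Wz_pos dvd_Wz crtT TT)

/-- modulo `q` the values of the pair `x` have a zero which is isolated by `H` -/
def GoodP (Φ : Fam) (q H : ℕ) (x : ℕ × ℕ) : Prop :=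
  ∃ i : ℕ, (q : ℤ) ∣ vv Φ i x ∧ ∀ i' : ℕ, ∀ d : ℤ, d ≠ 0 → |d| < H → (q : ℤ) ∣ (i' : ℤ) - i - d →
    ¬ (q : ℤ) ∣ vv Φ i' x

theorem vvc (Φ : Fam) (p τ : ℕ) (x y : ℕ × ℕ) (h1 : x.1 ≡ y.1 [MOD p]) (h2 : x.2 ≡ y.2 [MOD p]) :
    (p : ℤ) ∣ vv Φ τ x ↔ (p : ℤ) ∣ vv Φ τ y := by
  have a1 : (p : ℤ) ∣ (y.1 : ℤ) - x.1 := Nat.modEq_iff_dvd.1 h1
  have a2 : (p : ℤ) ∣ (y.2 : ℤ) - x.2 := Nat.modEq_iff_dvd.1 h2
  have a3 : (p : ℤ) ∣ vv Φ τ y - vv Φ τ x := by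
    have : vv Φ τ y - vv Φ τ x = ((y.1 : ℤ) - x.1) * τ - ((y.2 : ℤ) - x.2) := by unfold vv; ring
    rw [this]
    exact dvd_sub (Dvd.dvd.mul_right a1 _) a2
  constructor
  · intro h
    have := dvd_add a3 h
    simpa using this
  · intro h
    have := dvd_sub h a3
    simpa using this

theorem GoodP.congr {Φ : Fam} {q H : ℕ} {x y : ℕ × ℕ} (h1 : x.1 ≡ y.1 [MOD q]) (h2 : x.2 ≡ y.2 [MOD q])
    (h : GoodP Φ q H x) : GoodP Φ q H y := by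
  obtain ⟨i, g1, g2⟩ := h
  refine ⟨i, (vvc Φ q i x y h1 h2).1 g1, fun i' d hd hdH hi h3 => ?_⟩
  exact g2 i' d hd hdH hi ((vvc Φ q i' x y h1 h2).2 h3)

theorem killP {Φ : Fam} {q H : ℕ} (hq : 0 < q) (x : ℕ × ℕ) (t : ℕ) (ht : t < H) (hG : GoodP Φ q H x) :
    ∃ j : ℕ, (q : ℤ) ∣ vv Φ (j + t) x ∧ ∀ h : ℕ, h < H → h ≠ t → ¬ (q : ℤ) ∣ vv Φ (j + h) x := by
  obtain ⟨i, g1, g2⟩ := hG
  have hj : ((i + (q - 1) * t : ℕ) : ℤ) = i + (q - 1) * t := by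
    push_cast [Nat.cast_sub (show 1 ≤ q from hq)]
    ring
  refine ⟨i + (q - 1) * t, ?_, ?_⟩
  · apply (vv_shift Φ q (i + (q - 1) * t + t) i x _).2 g1
    rw [Nat.cast_add, hj]
    exact ⟨t, by ring⟩
  · intro h hh hne
    apply g2 _ ((h : ℤ) - t)
    · intro h3
      apply hne
      omega
    · rw [abs_lt]
      constructor <;> omega
    · rw [Nat.cast_add, hj]
      exact ⟨t, by ring⟩

/-- admissible base positions which kill the shifts of a set -/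
theorem exists_i0kP (Φ : Fam) {J : Type} [Fintype J] (h : J → ℕ) (z0 s0 r0 J0 : ℕ)
    (hch : ∀ p : ℕ, p.Prime → p ∣ Wz z0 → ∃ i : ℕ, ∀ j, ¬ (p : ℤ) ∣ vv Φ (i + h j) (s0, r0))
    (Kl : Finset ℕ) (sh q : ℕ → ℕ)
    (hq : ∀ u ∈ Kl, (q u).Prime ∧ q u < z0 ∧ ∃ i : ℕ, ((q u : ℕ) : ℤ) ∣ vv Φ (i + sh u) (s0, r0) ∧
      ∀ j, ¬ ((q u : ℕ) : ℤ) ∣ vv Φ (i + h j) (s0, r0))
    (hqi : Set.InjOn q Kl) :
    ∃ i0 : ℕ, J0 < i0 ∧ i0 ≤ J0 + Wz z0 ∧ (∀ m : ℕ, ∀ j,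
      (vv Φ (i0 + Wz z0 * m + h j) (s0, r0)).natAbs.Coprime (Wz z0)) ∧
      ∀ u ∈ Kl, ∀ i : ℕ, i ≡ i0 [MOD Wz z0] → ((q u : ℕ) : ℤ) ∣ vv Φ (i + sh u) (s0, r0) := by
  classical
  obtain ⟨P', hP'⟩ : ∃ P', P' = (range z0).filter Nat.Prime := ⟨_, rfl⟩
  have hpr : ∀ p ∈ P', p.Prime := fun p hp => by rw [hP'] at hp; exact (mem_filter.1 hp).2
  have hpz : ∀ p ∈ P', p ∣ Wz z0 := fun p hp => by
    rw [dvd_Wz z0 p (hpr p hp)]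
    rw [hP'] at hp
    exact mem_range.1 (mem_filter.1 hp).1
  have hch2 : ∀ u : P', ∃ i : ℕ, (∀ j, ¬ ((u : ℕ) : ℤ) ∣ vv Φ (i + h j) (s0, r0)) ∧
      ∀ t ∈ Kl, q t = (u : ℕ) → ((u : ℕ) : ℤ) ∣ vv Φ (i + sh t) (s0, r0) := by
    intro u
    by_cases hu : ∃ t ∈ Kl, q t = (u : ℕ)
    · obtain ⟨t, ht, htu⟩ := hu
      obtain ⟨_, _, i, hi1, hi2⟩ := hq t ht
      rw [htu] at hi1 hi2
      refine ⟨i, hi2, ?_⟩
      intro t' ht' htu'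
      have : t' = t := hqi ht' ht (htu'.trans htu.symm)
      rw [this]
      exact hi1
    · obtain ⟨i, hi⟩ := hch u (hpr u u.2) (hpz u u.2)
      exact ⟨i, hi, fun t ht htu => absurd ⟨t, ht, htu⟩ hu⟩
  choose c hc hck using hch2
  obtain ⟨a, b, hab⟩ := crtT hpr 1 (fun p hp h => (hpr p hp).one_lt.ne' (Nat.dvd_one.1 h)) 0 0
    (fun t => (c t, c t)) univ
  have hT : 1 * TT (univ : Finset P') = Wz z0 := by
    unfold TT Wz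
    rw [one_mul, Finset.prod_coe_sort P' (fun p => p), hP']
  rw [hT] at hab
  have hW := Wz_pos z0
  obtain ⟨i0, h1, h2, h3⟩ : ∃ i0, J0 < i0 ∧ i0 ≤ J0 + Wz z0 ∧ i0 ≡ a [MOD Wz z0] := by
    refine ⟨J0 + 1 + ((a + (Wz z0 - 1) * (J0 + 1)) % Wz z0), by omega, ?_, ?_⟩
    · have := Nat.mod_lt (a + (Wz z0 - 1) * (J0 + 1)) hW
      omega
    · have h4 : J0 + 1 + ((a + (Wz z0 - 1) * (J0 + 1)) % Wz z0) ≡
          J0 + 1 + (a + (Wz z0 - 1) * (J0 + 1)) [MOD Wz z0] := Nat.ModEq.add_left _ (Nat.mod_modEq _ _)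
      have h5 : J0 + 1 + (a + (Wz z0 - 1) * (J0 + 1)) = a + Wz z0 * (J0 + 1) := by
        obtain ⟨w, hw⟩ : ∃ w, Wz z0 = w + 1 := ⟨Wz z0 - 1, by omega⟩
        rw [hw, Nat.add_sub_cancel]
        ring
      rw [h5] at h4
      exact h4.trans (by unfold Nat.ModEq; simp)
  have hcl : ∀ p (hp : p ∈ P'), i0 ≡ c ⟨p, hp⟩ [MOD p] := by
    intro p hp
    have g4 := ((hab (a, b)).1 ⟨rfl, rfl⟩).2.2 ⟨p, hp⟩ (mem_univ _)
    exact (h3.of_dvd (hpz p hp)).trans g4.1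
  refine ⟨i0, h1, h2, fun m j => ?_, ?_⟩
  · rw [Nat.coprime_iff_gcd_eq_one]
    by_contra hne
    obtain ⟨p, hp, hpd⟩ := Nat.exists_prime_and_dvd hne
    have g1 := hpd.trans (Nat.gcd_dvd_left _ _)
    have g2 := hpd.trans (Nat.gcd_dvd_right _ _)
    have g3 : (p : ℤ) ∣ vv Φ (i0 + Wz z0 * m + h j) (s0, r0) := Int.natCast_dvd.2 g1
    have hpz' := (dvd_Wz z0 p hp).1 g2
    have hpP : p ∈ P' := by rw [hP']; exact mem_filter.2 ⟨mem_range.2 hpz', hp⟩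
    have g5 : i0 ≡ c ⟨p, hpP⟩ [MOD p] := hcl p hpP
    apply hc ⟨p, hpP⟩ j
    apply (vv_shift Φ p (i0 + Wz z0 * m + h j) (c ⟨p, hpP⟩ + h j) (s0, r0) _).1 g3
    have g6 : (p : ℤ) ∣ (i0 : ℤ) - c ⟨p, hpP⟩ := Nat.modEq_iff_dvd.1 g5.symm
    have g7 : (p : ℤ) ∣ (Wz z0 : ℤ) * m := Dvd.dvd.mul_right (by exact_mod_cast g2) _
    have e : ((i0 + Wz z0 * m + h j : ℕ) : ℤ) - ((c ⟨p, hpP⟩ + h j : ℕ) : ℤ) =
        (i0 - c ⟨p, hpP⟩) + Wz z0 * m := by push_cast; ring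
    rw [e]
    exact dvd_add g6 g7
  · intro t ht i hi
    obtain ⟨g1, g3, _⟩ := hq t ht
    have hpP : q t ∈ P' := by rw [hP']; exact mem_filter.2 ⟨mem_range.2 g3, g1⟩
    have hpd : q t ∣ Wz z0 := (dvd_Wz z0 (q t) g1).2 g3
    have g5 := hck ⟨q t, hpP⟩ t ht rfl
    have g6 : i ≡ c ⟨q t, hpP⟩ [MOD q t] := (hi.of_dvd hpd).trans (hcl _ hpP)
    apply (vv_shift Φ (q t) (i + sh t) (c ⟨q t, hpP⟩ + sh t) (s0, r0) _).2 g5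
    have g7 : ((q t : ℕ) : ℤ) ∣ (i : ℤ) - c ⟨q t, hpP⟩ := Nat.modEq_iff_dvd.1 g6.symm
    have e : ((i + sh t : ℕ) : ℤ) - ((c ⟨q t, hpP⟩ + sh t : ℕ) : ℤ) = i - c ⟨q t, hpP⟩ := by push_cast; ring
    rw [e]
    exact g7

end Pool.Agent.N688.NC
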