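import Pool.Agent.N688.NC.Adm

set_option autoImplicit false
set_option maxHeartbeats 4000000

/-!
# Almost all integers are good for one of several primes
-/

open Finset Filter

namespace Pool.Agent.N688.NC

open Classical in
/-- the bad residues -/
noncomputable def Bd (q H : ℕ) : Finset ℕ := (range q).filter (fun a => ¬ Good q H (a : ℤ))

theorem card_Bd (q H : ℕ) (hq : q.Prime) (hqH : 6 * H + 3 ≤ q) : 3 * (Bd q H).card ≤ 2 * q := by
  classical
  have hqp : Prime (q : ℤ) := Nat.prime_iff_prime_int.1 hq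
  have hq2 : ¬ (q : ℤ) ∣ 2 := by
    intro h
    have := Int.le_of_dvd (by norm_num) h
    omega
  have hne : ∀ u v : ℕ, u < q → v < q → (q : ℤ) ∣ (u : ℤ) - v → u = v := by
    intro u v hu hv h
    have h1 : (v : ℕ) ≡ u [MOD q] := (Nat.modEq_iff_dvd).2 h
    exact (Nat.ModEq.eq_of_lt_of_lt h1 hv hu).symm
  set X' : Finset ℕ := (range q).filter (fun x : ℕ => ∀ d : ℤ, d ≠ 0 → |d| < H → ¬ (q : ℤ) ∣ 2 * x + d)
    with hX'
  set Y : Finset ℕ := (range q).filter (fun x : ℕ => ¬ ∀ d : ℤ, d ≠ 0 → |d| < H → ¬ (q : ℤ) ∣ 2 * x + d)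
    with hY
  have hXY : X'.card + Y.card = q := by
    rw [hX', hY, card_filter_add_card_filter_not, card_range]
  have hYc : Y.card ≤ 2 * H := by
    have h1 : Y ⊆ (Ioo (-(H : ℤ)) H).biUnion
        (fun d => (range q).filter (fun x : ℕ => (q : ℤ) ∣ 2 * x + d)) := by
      intro x hx
      obtain ⟨hx1, hx2⟩ := mem_filter.1 hx
      push Not at hx2
      obtain ⟨d, _, hd2, hd3⟩ := hx2
      rw [mem_biUnion]
      refine ⟨d, ?_, mem_filter.2 ⟨hx1, hd3⟩⟩
      rw [mem_Ioo]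
      exact abs_lt.1 hd2
    refine (card_le_card h1).trans (card_biUnion_le.trans ?_)
    refine (sum_le_card_nsmul _ _ 1 fun d _ => ?_).trans ?_
    · rw [card_le_one]
      intro x hx y hy
      obtain ⟨hx1, hx2⟩ := mem_filter.1 hx
      obtain ⟨hy1, hy2⟩ := mem_filter.1 hy
      apply hne x y (mem_range.1 hx1) (mem_range.1 hy1)
      have h2 := dvd_sub hx2 hy2
      have e : 2 * (x : ℤ) + d - (2 * y + d) = 2 * (x - y) := by ring
      rw [e] at h2
      exact (hqp.dvd_or_dvd h2).resolve_left hq2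
    · rw [Int.card_Ioo, smul_eq_mul, mul_one]
      omega
  have hfib : ∀ a ∈ X'.image (fun x => x ^ 2 % q), (X'.filter (fun x => x ^ 2 % q = a)).card ≤ 2 := by
    intro a _
    by_contra hcon
    push Not at hcon
    obtain ⟨u, hu, v, hv, w, hw, huv, huw, hvw⟩ := two_lt_card.1 hcon
    have hmem : ∀ x ∈ X'.filter (fun x => x ^ 2 % q = a), x < q ∧ x ^ 2 % q = a := fun x hx =>
      ⟨mem_range.1 (mem_filter.1 (mem_filter.1 hx).1).1, (mem_filter.1 hx).2⟩
    have hsq : ∀ x ∈ X'.filter (fun x => x ^ 2 % q = a), ∀ y ∈ X'.filter (fun x => x ^ 2 % q = a),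
        x ≠ y → (q : ℤ) ∣ (x : ℤ) + y := by
      intro x hx y hy hxy
      obtain ⟨a1, a2⟩ := hmem x hx
      obtain ⟨b1, b2⟩ := hmem y hy
      have h1 : y ^ 2 ≡ x ^ 2 [MOD q] := by
        unfold Nat.ModEq
        rw [a2, b2]
      have h2 := Nat.modEq_iff_dvd.1 h1
      push_cast at h2
      have e : (x : ℤ) ^ 2 - y ^ 2 = (x - y) * (x + y) := by ring
      rw [e] at h2
      exact (hqp.dvd_or_dvd h2).resolve_left fun h3 => hxy (hne x y a1 b1 h3)
    have h1 := hsq u hu v hv huv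
    have h2 := hsq u hu w hw huw
    have h3 := dvd_sub h1 h2
    have e : (u : ℤ) + v - (u + w) = v - w := by ring
    rw [e] at h3
    exact hvw (hne v w (hmem v hv).1 (hmem w hw).1 h3)
  have h1 := card_le_mul_card_image X' 2 hfib
  have h2 : Disjoint (Bd q H) (X'.image (fun x => x ^ 2 % q)) := by
    rw [disjoint_left]
    intro a ha hb
    obtain ⟨x, hx, rfl⟩ := mem_image.1 hb
    apply (mem_filter.1 ha).2
    refine ⟨x, ?_, (mem_filter.1 hx).2⟩
    have h3 : (x ^ 2 % q : ℕ) ≡ x ^ 2 [MOD q] := Nat.mod_modEq _ _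
    have h4 := Nat.modEq_iff_dvd.1 h3
    push_cast at h4 ⊢
    exact h4
  have h3 : (Bd q H ∪ X'.image (fun x => x ^ 2 % q)).card ≤ q := by
    have h4 : Bd q H ∪ X'.image (fun x => x ^ 2 % q) ⊆ range q := by
      apply union_subset (filter_subset _ _)
      intro a ha
      obtain ⟨x, _, rfl⟩ := mem_image.1 ha
      exact mem_range.2 (Nat.mod_lt _ hq.pos)
    have := card_le_card h4
    rwa [card_range] at this
  rw [card_union_of_disjoint h2] at h3
  omega

open Classical in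
theorem card_CRT (H : ℕ) (G : Finset ℕ) (hG : ∀ q ∈ G, q.Prime ∧ 6 * H + 3 ≤ q) :
    3 ^ G.card * ((range (∏ q ∈ G, q)).filter (fun a : ℕ => ∀ q ∈ G, ¬ Good q H (a : ℤ))).card ≤
      2 ^ G.card * ∏ q ∈ G, q := by
  induction G using Finset.induction_on with
  | empty => simp
  | insert q G hqG ih =>
    have hG' : ∀ q ∈ G, q.Prime ∧ 6 * H + 3 ≤ q := fun p hp => hG p (mem_insert_of_mem hp)
    obtain ⟨hq, hqH⟩ := hG q (mem_insert_self q G)
    have ih := ih hG'
    set Q : ℕ := ∏ q ∈ G, q with hQ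
    have hQ0 : 0 < Q := prod_pos fun p hp => (hG' p hp).1.pos
    have hcop : q.Coprime Q := Nat.Coprime.prod_right fun p hp =>
      (Nat.coprime_primes hq (hG' p hp).1).2 fun h => hqG (h ▸ hp)
    rw [prod_insert hqG, card_insert_of_notMem hqG, ← hQ]
    set F : Finset ℕ := (range Q).filter (fun a : ℕ => ∀ q ∈ G, ¬ Good q H (a : ℤ)) with hF
    have h1 : ((range (q * Q)).filter (fun a : ℕ => ∀ p ∈ insert q G, ¬ Good p H (a : ℤ))).card ≤
        (Bd q H ×ˢ F).card := by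
      apply card_le_card_of_injOn (fun a => (a % q, a % Q))
      · intro a ha
        obtain ⟨ha1, ha2⟩ := mem_filter.1 (mem_coe.1 ha)
        rw [mem_coe, mem_product]
        have hmod : ∀ m p : ℕ, p ∣ m → ((p : ℕ) : ℤ) ∣ ((a % m : ℕ) : ℤ) - a := by
          intro m p hpm
          have h3 : a ≡ a % m [MOD m] := (Nat.mod_modEq a m).symm
          exact Nat.modEq_iff_dvd.1 (h3.of_dvd hpm)
        constructor
        · unfold Bd
          rw [mem_filter, mem_range]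
          exact ⟨Nat.mod_lt _ hq.pos, fun h => ha2 q (mem_insert_self q G)
            (h.congr (hmod q q dvd_rfl))⟩
        · rw [hF, mem_filter, mem_range]
          exact ⟨Nat.mod_lt _ hQ0, fun p hp h => ha2 p (mem_insert_of_mem hp)
            (h.congr (hmod Q p (dvd_prod_of_mem _ hp)))⟩
      · intro a ha b hb hab
        rw [Prod.mk.injEq] at hab
        have ha1 := mem_range.1 (mem_filter.1 (mem_coe.1 ha)).1
        have hb1 := mem_range.1 (mem_filter.1 (mem_coe.1 hb)).1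
        have h3 : a ≡ b [MOD q * Q] := (Nat.modEq_and_modEq_iff_modEq_mul hcop).1 ⟨hab.1, hab.2⟩
        exact Nat.ModEq.eq_of_lt_of_lt h3 ha1 hb1
    rw [card_product] at h1
    have h2 := card_Bd q H hq hqH
    calc 3 ^ (G.card + 1) * ((range (q * Q)).filter
          (fun a : ℕ => ∀ p ∈ insert q G, ¬ Good p H (a : ℤ))).card
        ≤ 3 ^ (G.card + 1) * ((Bd q H).card * F.card) := Nat.mul_le_mul_left _ h1
      _ = (3 * (Bd q H).card) * (3 ^ G.card * F.card) := by ring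
      _ ≤ (2 * q) * (2 ^ G.card * Q) := Nat.mul_le_mul h2 ih
      _ = 2 ^ (G.card + 1) * (q * Q) := by ring

open Classical in
theorem card_Icc_bad (H : ℕ) (G : Finset ℕ) (hG : ∀ q ∈ G, q.Prime ∧ 6 * H + 3 ≤ q) (X : ℕ) :
    3 ^ G.card * ((Icc 1 X).filter (fun a : ℕ => ∀ q ∈ G, ¬ Good q H (a : ℤ))).card ≤
      2 ^ G.card * (X + ∏ q ∈ G, q) := by
  set Q : ℕ := ∏ q ∈ G, q with hQ
  have hQ0 : 0 < Q := prod_pos fun p hp => (hG p hp).1.pos
  set F : Finset ℕ := (range Q).filter (fun a : ℕ => ∀ q ∈ G, ¬ Good q H (a : ℤ)) with hF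
  have h1 : ((Icc 1 X).filter (fun a : ℕ => ∀ q ∈ G, ¬ Good q H (a : ℤ))).card ≤
      (range (X / Q + 1) ×ˢ F).card := by
    apply card_le_card_of_injOn (fun a => (a / Q, a % Q))
    · intro a ha
      obtain ⟨ha1, ha2⟩ := mem_filter.1 (mem_coe.1 ha)
      rw [mem_coe, mem_product, mem_range]
      constructor
      · exact Nat.lt_succ_of_le (Nat.div_le_div_right (mem_Icc.1 ha1).2)
      · rw [hF, mem_filter, mem_range]
        refine ⟨Nat.mod_lt _ hQ0, fun p hp h => ha2 p hp (h.congr ?_)⟩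
        have h3 : a ≡ a % Q [MOD Q] := (Nat.mod_modEq a Q).symm
        exact Nat.modEq_iff_dvd.1 (h3.of_dvd (dvd_prod_of_mem _ hp))
    · intro a _ b _ hab
      rw [Prod.mk.injEq] at hab
      rw [← Nat.div_add_mod a Q, ← Nat.div_add_mod b Q, hab.1, hab.2]
  rw [card_product, card_range] at h1
  have h2 := card_CRT H G hG
  rw [← hQ, ← hF] at h2
  calc 3 ^ G.card * ((Icc 1 X).filter (fun a : ℕ => ∀ q ∈ G, ¬ Good q H (a : ℤ))).card
      ≤ 3 ^ G.card * ((X / Q + 1) * F.card) := Nat.mul_le_mul_left _ h1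
    _ = (X / Q + 1) * (3 ^ G.card * F.card) := by ring
    _ ≤ (X / Q + 1) * (2 ^ G.card * Q) := Nat.mul_le_mul_left _ h2
    _ = 2 ^ G.card * (X / Q * Q + Q) := by ring
    _ ≤ 2 ^ G.card * (X + Q) := Nat.mul_le_mul_left _ (Nat.add_le_add_right (Nat.div_mul_le_self X Q) Q)

open Classical in
/-- families of primes one of which is good for almost all integers -/
theorem kill_family (H : ℕ) (η : ℝ) (hη : 0 < η) : ∃ (Gs : ℕ → Finset ℕ) (Pm : ℕ),
    (∀ t, ∀ q ∈ Gs t, q.Prime ∧ 6 * H + 3 ≤ q) ∧ (∀ t < H, ∀ q ∈ Gs t, q < Pm) ∧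
    (∀ t t', t ≠ t' → Disjoint (Gs t) (Gs t')) ∧ ∃ X₀ : ℕ, ∀ X : ℕ, X₀ ≤ X →
      (((Icc 1 X).filter (fun a : ℕ => ∃ t < H, ∀ q ∈ Gs t, ¬ Good q H (a : ℤ))).card : ℝ) ≤ η * X := by
  obtain ⟨R, hR⟩ : ∃ R : ℕ, ((2 : ℝ) / 3) ^ R < η / (2 * H + 1) :=
    exists_pow_lt_of_lt_one (by positivity) (by norm_num)
  set Gs : ℕ → Finset ℕ := fun t =>
    (Ico (6 * H + 3 + t * R) (6 * H + 3 + (t + 1) * R)).image (Nat.nth Nat.Prime) with hGs
  have hinj : Function.Injective (Nat.nth Nat.Prime) := Nat.nth_injective Nat.infinite_setOfPred_prime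
  have hc : ∀ t, (Gs t).card = R := by
    intro t
    rw [hGs]
    simp only
    rw [card_image_of_injective _ hinj, Nat.card_Ico, add_mul, one_mul]
    omega
  have hG : ∀ t, ∀ q ∈ Gs t, q.Prime ∧ 6 * H + 3 ≤ q := by
    intro t q hq
    obtain ⟨n, hn, rfl⟩ := mem_image.1 hq
    have h1 := (mem_Ico.1 hn).1
    have h2 := Nat.add_two_le_nth_prime n
    exact ⟨Nat.prime_nth_prime n, by omega⟩
  refine ⟨Gs, (∑ t ∈ range H, ∏ q ∈ Gs t, q) + 1, hG, ?_, ?_, ∑ t ∈ range H, ∏ q ∈ Gs t, q, ?_⟩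
  · intro t ht q hq
    have h1 : q ≤ ∏ q ∈ Gs t, q :=
      Nat.le_of_dvd (prod_pos fun p hp => (hG t p hp).1.pos) (dvd_prod_of_mem _ hq)
    have h2 := single_le_sum (f := fun t => ∏ q ∈ Gs t, q) (fun _ _ => Nat.zero_le _) (mem_range.2 ht)
    omega
  · intro t t' htt
    rw [disjoint_left]
    intro q hq hq'
    obtain ⟨n, hn, rfl⟩ := mem_image.1 hq
    obtain ⟨n', hn', hnn⟩ := mem_image.1 hq'
    have := hinj hnn
    subst this
    have h1 := mem_Ico.1 hn
    have h2 := mem_Ico.1 hn'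
    rcases Nat.lt_or_gt_of_ne htt with h3 | h3
    · have h4 : (t + 1) * R ≤ t' * R := Nat.mul_le_mul_right R h3
      omega
    · have h4 : (t' + 1) * R ≤ t * R := Nat.mul_le_mul_right R h3
      omega
  · intro X hX
    have h1 : ((Icc 1 X).filter (fun a : ℕ => ∃ t < H, ∀ q ∈ Gs t, ¬ Good q H (a : ℤ))).card ≤
        ∑ t ∈ range H, ((Icc 1 X).filter (fun a : ℕ => ∀ q ∈ Gs t, ¬ Good q H (a : ℤ))).card := by
      refine le_trans (card_le_card ?_) card_biUnion_le
      intro a ha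
      obtain ⟨ha1, t, ht, ha2⟩ := mem_filter.1 ha
      exact mem_biUnion.2 ⟨t, mem_range.2 ht, mem_filter.2 ⟨ha1, ha2⟩⟩
    have h2 : ∀ t ∈ range H, (((Icc 1 X).filter
        (fun a : ℕ => ∀ q ∈ Gs t, ¬ Good q H (a : ℤ))).card : ℝ) ≤ (2 / 3 : ℝ) ^ R * (2 * X) := by
      intro t ht
      have h3 := card_Icc_bad H (Gs t) (hG t) X
      rw [hc t] at h3
      have h4 : ∏ q ∈ Gs t, q ≤ X :=
        (single_le_sum (f := fun t => ∏ q ∈ Gs t, q) (fun _ _ => Nat.zero_le _) ht).trans hX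
      have h5 : 3 ^ R * ((Icc 1 X).filter (fun a : ℕ => ∀ q ∈ Gs t, ¬ Good q H (a : ℤ))).card ≤
          2 ^ R * (2 * X) := h3.trans (Nat.mul_le_mul_left _ (by omega))
      have h6 : (3 : ℝ) ^ R * (((Icc 1 X).filter (fun a : ℕ => ∀ q ∈ Gs t, ¬ Good q H (a : ℤ))).card : ℝ) ≤
          2 ^ R * (2 * X) := by exact_mod_cast h5
      rw [div_pow, div_mul_eq_mul_div, le_div_iff₀ (by positivity)]
      linarith
    calc (((Icc 1 X).filter (fun a : ℕ => ∃ t < H, ∀ q ∈ Gs t, ¬ Good q H (a : ℤ))).card : ℝ)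
        ≤ ∑ t ∈ range H, (((Icc 1 X).filter (fun a : ℕ => ∀ q ∈ Gs t, ¬ Good q H (a : ℤ))).card : ℝ) := by
          exact_mod_cast h1
      _ ≤ ∑ _t ∈ range H, (2 / 3 : ℝ) ^ R * (2 * X) := sum_le_sum h2
      _ = (2 / 3 : ℝ) ^ R * (2 * H) * X := by rw [sum_const, card_range, nsmul_eq_mul]; ring
      _ ≤ η * X := by
          apply mul_le_mul_of_nonneg_right _ (Nat.cast_nonneg _)
          have h7 : (2 / 3 : ℝ) ^ R * (2 * H + 1) < η := by
            rwa [lt_div_iff₀ (by positivity)] at hR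
          have h8 : (0 : ℝ) ≤ (2 / 3 : ℝ) ^ R := by positivity
          nlinarith

end Pool.Agent.N688.NC
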