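import Pool.Agent.N688.NC.AdmP

set_option autoImplicit false
set_option maxHeartbeats 4000000

/-!
# Almost all pairs are good for one of several primes
-/

open Finset Filter

namespace Pool.Agent.N688.NC

open Pool.Agent.N913.MG
open Pool.Agent.N913.MT (Cl)

open Classical in
/-- the bad pairs of residues -/
noncomputable def BdP (Φ : Fam) (q H : ℕ) : Finset (ℕ × ℕ) := (Cl q).filter (fun x => ¬ GoodP Φ q H x)

theorem card_BdP (Φ : Fam) (q H : ℕ) (hq : q.Prime) (hqH : 12 * H + 1 ≤ q) :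
    3 * (BdP Φ q H).card ≤ 2 * q ^ 2 := by
  classical
  have hq0 : 0 < q := hq.pos
  have hqz : (q : ℤ) ≠ 0 := by exact_mod_cast hq0.ne'
  set D : Finset ℤ := (Ioo (-(H : ℤ)) H).erase 0 with hD
  have hDm : ∀ d ∈ D, d ≠ 0 ∧ |d| < H := by
    intro d hd
    obtain ⟨h1, h2⟩ := mem_erase.1 hd
    exact ⟨h1, abs_lt.2 (mem_Ioo.1 h2)⟩
  have hDc : D.card ≤ 2 * H := by
    refine (card_erase_le).trans ?_
    rw [Int.card_Ioo]
    omega
  have hndvd : ∀ d : ℤ, d ≠ 0 → |d| < H → ¬ (q : ℤ) ∣ d := by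
    intro d hd hdH hdv
    have h1 := Int.le_of_dvd (abs_pos.2 hd) ((dvd_abs _ _).2 hdv)
    have : (H : ℤ) ≤ q := by
      have : H ≤ q := by omega
      exact_mod_cast this
    omega
  -- the three counts
  have hClc : (Cl q).card = q ^ 2 := by
    unfold Cl
    rw [card_product, card_range, pow_two]
  have s1 : ∑ x ∈ Cl q, ((range q).filter (fun τ : ℕ => (q : ℤ) ∣ vv Φ τ x)).card = q ^ 2 := by
    have h1 := sum_card_bipartiteAbove_eq_sum_card_bipartiteBelow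
      (s := Cl q) (t := range q) (fun x τ => (q : ℤ) ∣ vv Φ τ x)
    unfold bipartiteAbove bipartiteBelow at h1
    rw [h1]
    rw [sum_congr rfl fun τ _ => card_Z1 Φ q hq0 τ, sum_const, card_range, smul_eq_mul, pow_two]
  have s2 : ∑ x ∈ Cl q, (((range q).offDiag).filter
      (fun u : ℕ × ℕ => (q : ℤ) ∣ vv Φ u.1 x ∧ (q : ℤ) ∣ vv Φ u.2 x)).card = q * q - q := by
    have h1 := sum_card_bipartiteAbove_eq_sum_card_bipartiteBelow
      (s := Cl q) (t := (range q).offDiag) (fun x (u : ℕ × ℕ) => (q : ℤ) ∣ vv Φ u.1 x ∧ (q : ℤ) ∣ vv Φ u.2 x)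
    unfold bipartiteAbove bipartiteBelow at h1
    rw [h1]
    rw [sum_congr rfl (fun u hu => card_Z2 Φ q hq u.1 u.2 (by
      rw [mem_offDiag, mem_range, mem_range] at hu
      intro h2
      have h3 : (u.2 : ℕ) ≡ u.1 [MOD q] := Nat.modEq_iff_dvd.2 h2
      exact hu.2.2 (Nat.ModEq.eq_of_lt_of_lt h3 hu.2.1 hu.1).symm))]
    rw [sum_const, smul_eq_mul, mul_one, offDiag_card, card_range]
  have s3 : ∑ x ∈ Cl q, ((range q ×ˢ D).filter
      (fun u : ℕ × ℤ => (q : ℤ) ∣ vv Φ u.1 x ∧ (q : ℤ) ∣ vv Φ (u.1 + (u.2 % (q : ℤ)).toNat) x)).card ≤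
      q * (2 * H) := by
    have h1 := sum_card_bipartiteAbove_eq_sum_card_bipartiteBelow
      (s := Cl q) (t := range q ×ˢ D)
      (fun x (u : ℕ × ℤ) => (q : ℤ) ∣ vv Φ u.1 x ∧ (q : ℤ) ∣ vv Φ (u.1 + (u.2 % (q : ℤ)).toNat) x)
    unfold bipartiteAbove bipartiteBelow at h1
    rw [h1]
    rw [sum_congr rfl (fun u hu => card_Z2 Φ q hq u.1 (u.1 + (u.2 % (q : ℤ)).toNat) (by
      obtain ⟨g1, g2⟩ := hDm u.2 (mem_product.1 hu).2
      rw [Nat.cast_add, Int.toNat_of_nonneg (Int.emod_nonneg _ hqz)]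
      intro h2
      apply hndvd u.2 g1 g2
      have h3 : (q : ℤ) ∣ u.2 - u.2 % q := Int.dvd_self_sub_emod
      have h4 := dvd_sub h3 h2
      have e : u.2 - u.2 % (q : ℤ) - ((u.1 : ℤ) - (u.1 + u.2 % (q : ℤ))) = u.2 := by ring
      rwa [e] at h4))]
    rw [sum_const, smul_eq_mul, mul_one, card_product, card_range]
    exact Nat.mul_le_mul_left _ hDc
  -- the pointwise inequality
  have key : ∀ x ∈ Cl q, 2 * ((range q).filter (fun τ : ℕ => (q : ℤ) ∣ vv Φ τ x)).card ≤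
      2 * (if GoodP Φ q H x then 1 else 0) +
      (((range q).offDiag).filter
        (fun u : ℕ × ℕ => (q : ℤ) ∣ vv Φ u.1 x ∧ (q : ℤ) ∣ vv Φ u.2 x)).card +
      2 * ((range q ×ˢ D).filter
        (fun u : ℕ × ℤ => (q : ℤ) ∣ vv Φ u.1 x ∧ (q : ℤ) ∣ vv Φ (u.1 + (u.2 % (q : ℤ)).toNat) x)).card := by
    intro x _
    set Z : Finset ℕ := (range q).filter (fun τ : ℕ => (q : ℤ) ∣ vv Φ τ x) with hZ
    by_cases hG : GoodP Φ q H x
    · rw [if_pos hG]
      have h1 : Z.offDiag ⊆ ((range q).offDiag).filter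
          (fun u : ℕ × ℕ => (q : ℤ) ∣ vv Φ u.1 x ∧ (q : ℤ) ∣ vv Φ u.2 x) := by
        intro u hu
        rw [mem_offDiag] at hu
        obtain ⟨g1, g2⟩ := mem_filter.1 hu.1
        obtain ⟨g3, g4⟩ := mem_filter.1 hu.2.1
        exact mem_filter.2 ⟨mem_offDiag.2 ⟨g1, g3, hu.2.2⟩, g2, g4⟩
      have h2 := card_le_card h1
      rw [offDiag_card] at h2
      have h3 : 2 * Z.card ≤ 2 + (Z.card * Z.card - Z.card) := by
        rcases Nat.lt_or_ge Z.card 3 with h4 | h4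
        · interval_cases Z.card <;> omega
        · have h5 : 3 * Z.card ≤ Z.card * Z.card := Nat.mul_le_mul_right _ h4
          omega
      omega
    · rw [if_neg hG]
      have h1 : Z.card ≤ ((range q ×ˢ D).filter
          (fun u : ℕ × ℤ => (q : ℤ) ∣ vv Φ u.1 x ∧ (q : ℤ) ∣ vv Φ (u.1 + (u.2 % (q : ℤ)).toNat) x)).card := by
        have h2 : ∀ τ ∈ Z, ∃ d ∈ D, (q : ℤ) ∣ vv Φ (τ + (d % (q : ℤ)).toNat) x := by
          intro τ hτ
          by_contra hcon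
          push Not at hcon
          apply hG
          refine ⟨τ, (mem_filter.1 hτ).2, fun i' d hd hdH hi h3 => ?_⟩
          apply hcon d (by
            rw [hD, mem_erase, mem_Ioo]
            exact ⟨hd, abs_lt.1 hdH⟩)
          apply (vv_shift Φ q (τ + (d % (q : ℤ)).toNat) i' x _).2 h3
          rw [Nat.cast_add, Int.toNat_of_nonneg (Int.emod_nonneg _ hqz)]
          have h4 : (q : ℤ) ∣ d - d % q := Int.dvd_self_sub_emod
          have h5 := dvd_add h4 hi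
          have e : (τ : ℤ) + d % (q : ℤ) - i' = -(d - d % (q : ℤ) + ((i' : ℤ) - τ - d)) := by ring
          rw [e]
          exact h5.neg_right
        choose! f hf1 hf2 using h2
        apply card_le_card_of_injOn (fun τ => (τ, f τ))
        · intro τ hτ
          have hτ' := mem_coe.1 hτ
          rw [mem_coe, mem_filter, mem_product]
          exact ⟨⟨(mem_filter.1 hτ').1, hf1 τ hτ'⟩, (mem_filter.1 hτ').2, hf2 τ hτ'⟩
        · intro τ _ τ' _ h
          exact (Prod.mk.injEq _ _ _ _ ▸ h).1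
      omega
  have hsum := sum_le_sum key
  rw [← mul_sum, s1, sum_add_distrib, sum_add_distrib, ← mul_sum, ← mul_sum, s2] at hsum
  have hI : ∑ x ∈ Cl q, (if GoodP Φ q H x then 1 else 0) = ((Cl q).filter (fun x => GoodP Φ q H x)).card := by
    rw [card_filter]
  rw [hI] at hsum
  have hsplit : ((Cl q).filter (fun x => GoodP Φ q H x)).card + (BdP Φ q H).card = q ^ 2 := by
    unfold BdP
    rw [card_filter_add_card_filter_not, hClc]
  have h1 : q * q - q ≤ q ^ 2 := by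
    rw [pow_two]
    omega
  have h2 : 12 * (q * H) ≤ q ^ 2 := by
    calc 12 * (q * H) = q * (12 * H) := by ring
      _ ≤ q * q := Nat.mul_le_mul_left q (by omega)
      _ = q ^ 2 := (pow_two q).symm
  have h3 : q * (2 * H) = 2 * (q * H) := by ring
  rw [h3] at s3
  omega

open Classical in
theorem card_CRTP (Φ : Fam) (H : ℕ) (G : Finset ℕ) (hG : ∀ q ∈ G, q.Prime ∧ 12 * H + 1 ≤ q) :
    3 ^ G.card * ((range (∏ q ∈ G, q) ×ˢ range (∏ q ∈ G, q)).filter
      (fun x : ℕ × ℕ => ∀ q ∈ G, ¬ GoodP Φ q H x)).card ≤ 2 ^ G.card * (∏ q ∈ G, q) ^ 2 := by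
  induction G using Finset.induction_on with
  | empty => simp
  | insert q G hqG ih =>
    have hG' : ∀ q ∈ G, q.Prime ∧ 12 * H + 1 ≤ q := fun p hp => hG p (mem_insert_of_mem hp)
    obtain ⟨hq, hqH⟩ := hG q (mem_insert_self q G)
    have ih := ih hG'
    set Q : ℕ := ∏ q ∈ G, q with hQ
    have hQ0 : 0 < Q := prod_pos fun p hp => (hG' p hp).1.pos
    have hcop : q.Coprime Q := Nat.Coprime.prod_right fun p hp =>
      (Nat.coprime_primes hq (hG' p hp).1).2 fun h => hqG (h ▸ hp)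
    rw [prod_insert hqG, card_insert_of_notMem hqG, ← hQ]
    set F : Finset (ℕ × ℕ) := (range Q ×ˢ range Q).filter
      (fun x : ℕ × ℕ => ∀ q ∈ G, ¬ GoodP Φ q H x) with hF
    have h1 : ((range (q * Q) ×ˢ range (q * Q)).filter
        (fun x : ℕ × ℕ => ∀ p ∈ insert q G, ¬ GoodP Φ p H x)).card ≤ (BdP Φ q H ×ˢ F).card := by
      apply card_le_card_of_injOn (fun x => ((x.1 % q, x.2 % q), (x.1 % Q, x.2 % Q)))
      · intro x hx
        obtain ⟨hx1, hx2⟩ := mem_filter.1 (mem_coe.1 hx)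
        rw [mem_coe, mem_product]
        have hmod : ∀ m p a : ℕ, p ∣ m → a % m ≡ a [MOD p] := fun m p a hpm =>
          (Nat.mod_modEq a m).of_dvd hpm
        constructor
        · unfold BdP Cl
          rw [mem_filter, mem_product, mem_range, mem_range]
          exact ⟨⟨Nat.mod_lt _ hq.pos, Nat.mod_lt _ hq.pos⟩, fun h => hx2 q (mem_insert_self q G)
            (h.congr (hmod q q x.1 dvd_rfl) (hmod q q x.2 dvd_rfl))⟩
        · rw [hF, mem_filter, mem_product, mem_range, mem_range]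
          exact ⟨⟨Nat.mod_lt _ hQ0, Nat.mod_lt _ hQ0⟩, fun p hp h => hx2 p (mem_insert_of_mem hp)
            (h.congr (hmod Q p x.1 (dvd_prod_of_mem _ hp)) (hmod Q p x.2 (dvd_prod_of_mem _ hp)))⟩
      · intro x hx y hy hxy
        simp only [Prod.mk.injEq] at hxy
        obtain ⟨⟨e1, e2⟩, e3, e4⟩ := hxy
        have hx1 := mem_product.1 (mem_filter.1 (mem_coe.1 hx)).1
        have hy1 := mem_product.1 (mem_filter.1 (mem_coe.1 hy)).1
        rw [mem_range, mem_range] at hx1 hy1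
        have h3 : x.1 ≡ y.1 [MOD q * Q] := (Nat.modEq_and_modEq_iff_modEq_mul hcop).1 ⟨e1, e3⟩
        have h4 : x.2 ≡ y.2 [MOD q * Q] := (Nat.modEq_and_modEq_iff_modEq_mul hcop).1 ⟨e2, e4⟩
        exact Prod.ext (Nat.ModEq.eq_of_lt_of_lt h3 hx1.1 hy1.1) (Nat.ModEq.eq_of_lt_of_lt h4 hx1.2 hy1.2)
    rw [card_product] at h1
    have h2 := card_BdP Φ q H hq hqH
    calc 3 ^ (G.card + 1) * ((range (q * Q) ×ˢ range (q * Q)).filter
          (fun x : ℕ × ℕ => ∀ p ∈ insert q G, ¬ GoodP Φ p H x)).card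
        ≤ 3 ^ (G.card + 1) * ((BdP Φ q H).card * F.card) := Nat.mul_le_mul_left _ h1
      _ = (3 * (BdP Φ q H).card) * (3 ^ G.card * F.card) := by ring
      _ ≤ (2 * q ^ 2) * (2 ^ G.card * Q ^ 2) := Nat.mul_le_mul h2 ih
      _ = 2 ^ (G.card + 1) * (q * Q) ^ 2 := by ring

open Classical in
theorem card_box_bad (Φ : Fam) (H : ℕ) (G : Finset ℕ) (hG : ∀ q ∈ G, q.Prime ∧ 12 * H + 1 ≤ q) (S : ℕ) :
    3 ^ G.card * ((range S ×ˢ range S).filter (fun x : ℕ × ℕ => ∀ q ∈ G, ¬ GoodP Φ q H x)).card ≤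
      2 ^ G.card * (S + ∏ q ∈ G, q) ^ 2 := by
  set Q : ℕ := ∏ q ∈ G, q with hQ
  have hQ0 : 0 < Q := prod_pos fun p hp => (hG p hp).1.pos
  set F : Finset (ℕ × ℕ) := (range Q ×ˢ range Q).filter
    (fun x : ℕ × ℕ => ∀ q ∈ G, ¬ GoodP Φ q H x) with hF
  have h1 : ((range S ×ˢ range S).filter (fun x : ℕ × ℕ => ∀ q ∈ G, ¬ GoodP Φ q H x)).card ≤
      ((range (S / Q + 1) ×ˢ range (S / Q + 1)) ×ˢ F).card := by
    apply card_le_card_of_injOn (fun x => ((x.1 / Q, x.2 / Q), (x.1 % Q, x.2 % Q)))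
    · intro x hx
      obtain ⟨hx1, hx2⟩ := mem_filter.1 (mem_coe.1 hx)
      rw [mem_product, mem_range, mem_range] at hx1
      rw [mem_coe, mem_product, mem_product, mem_range, mem_range]
      refine ⟨⟨Nat.lt_succ_of_le (Nat.div_le_div_right hx1.1.le),
        Nat.lt_succ_of_le (Nat.div_le_div_right hx1.2.le)⟩, ?_⟩
      rw [hF, mem_filter, mem_product, mem_range, mem_range]
      exact ⟨⟨Nat.mod_lt _ hQ0, Nat.mod_lt _ hQ0⟩, fun p hp h => hx2 p hp
        (h.congr ((Nat.mod_modEq x.1 Q).of_dvd (dvd_prod_of_mem _ hp))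
          ((Nat.mod_modEq x.2 Q).of_dvd (dvd_prod_of_mem _ hp)))⟩
    · intro x _ y _ hxy
      simp only [Prod.mk.injEq] at hxy
      obtain ⟨⟨e1, e2⟩, e3, e4⟩ := hxy
      apply Prod.ext
      · rw [← Nat.div_add_mod x.1 Q, ← Nat.div_add_mod y.1 Q, e1, e3]
      · rw [← Nat.div_add_mod x.2 Q, ← Nat.div_add_mod y.2 Q, e2, e4]
  rw [card_product, card_product, card_range] at h1
  have h2 := card_CRTP Φ H G hG
  rw [← hQ, ← hF] at h2
  calc 3 ^ G.card * ((range S ×ˢ range S).filter (fun x : ℕ × ℕ => ∀ q ∈ G, ¬ GoodP Φ q H x)).card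
      ≤ 3 ^ G.card * ((S / Q + 1) * (S / Q + 1) * F.card) := Nat.mul_le_mul_left _ h1
    _ = (S / Q + 1) ^ 2 * (3 ^ G.card * F.card) := by ring
    _ ≤ (S / Q + 1) ^ 2 * (2 ^ G.card * Q ^ 2) := Nat.mul_le_mul_left _ h2
    _ = 2 ^ G.card * (S / Q * Q + Q) ^ 2 := by ring
    _ ≤ 2 ^ G.card * (S + Q) ^ 2 := Nat.mul_le_mul_left _
        (Nat.pow_le_pow_left (Nat.add_le_add_right (Nat.div_mul_le_self S Q) Q) 2)

open Classical in
/-- families of primes one of which is good for almost all pairs -/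
theorem kill_familyP (H N : ℕ) (η : ℝ) (hη : 0 < η) : ∃ (Gs : ℕ → Finset ℕ) (Pm : ℕ),
    (∀ t, ∀ q ∈ Gs t, q.Prime ∧ 12 * H + 1 ≤ q) ∧ (∀ t < N, ∀ q ∈ Gs t, q < Pm) ∧
    (∀ t t', t ≠ t' → Disjoint (Gs t) (Gs t')) ∧ ∃ S₀ : ℕ, ∀ (Φ : Fam) (S : ℕ), S₀ ≤ S →
      (((range S ×ˢ range S).filter
        (fun x : ℕ × ℕ => ∃ t < N, ∀ q ∈ Gs t, ¬ GoodP Φ q H x)).card : ℝ) ≤ η * (S : ℝ) ^ 2 := by
  obtain ⟨R, hR⟩ : ∃ R : ℕ, ((2 : ℝ) / 3) ^ R < η / (4 * N + 1) :=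
    exists_pow_lt_of_lt_one (by positivity) (by norm_num)
  set Gs : ℕ → Finset ℕ := fun t =>
    (Ico (12 * H + 1 + t * R) (12 * H + 1 + (t + 1) * R)).image (Nat.nth Nat.Prime) with hGs
  have hinj : Function.Injective (Nat.nth Nat.Prime) := Nat.nth_injective Nat.infinite_setOfPred_prime
  have hc : ∀ t, (Gs t).card = R := by
    intro t
    rw [hGs]
    simp only
    rw [card_image_of_injective _ hinj, Nat.card_Ico, add_mul, one_mul]
    omega
  have hG : ∀ t, ∀ q ∈ Gs t, q.Prime ∧ 12 * H + 1 ≤ q := by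
    intro t q hq
    obtain ⟨n, hn, rfl⟩ := mem_image.1 hq
    have h1 := (mem_Ico.1 hn).1
    have h2 := Nat.add_two_le_nth_prime n
    exact ⟨Nat.prime_nth_prime n, by omega⟩
  refine ⟨Gs, (∑ t ∈ range N, ∏ q ∈ Gs t, q) + 1, hG, ?_, ?_, ∑ t ∈ range N, ∏ q ∈ Gs t, q, ?_⟩
  · intro t ht q hq
    have h1 : q ≤ ∏ q ∈ Gs t, q :=
      Nat.le_of_dvd (prod_pos fun p hp => (hG t p hp).1.pos) (dvd_prod_of_mem _ hq)
    have h2 := single_le_sum (f := fun t => ∏ q ∈ Gs t, q) (fun _ _ => Nat.zero_le _) (mem_range.2 ht)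
    omega
  · intro t t' htt
    rw [disjoint_left]
    intro q hq hq'
    obtain ⟨n, hn, rfl⟩ := mem_image.1 hq
    obtain ⟨n', hn', hnn⟩ := mem_image.1 hq'
    have := hinj hnn
    subst this
    have h1 := mem_Ico.1 hn
    have h2 := mem_Ico.1 hn'
    rcases Nat.lt_or_gt_of_ne htt with h3 | h3
    · have h4 : (t + 1) * R ≤ t' * R := Nat.mul_le_mul_right R h3
      omega
    · have h4 : (t' + 1) * R ≤ t * R := Nat.mul_le_mul_right R h3
      omega
  · intro Φ S hS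
    have h1 : ((range S ×ˢ range S).filter
        (fun x : ℕ × ℕ => ∃ t < N, ∀ q ∈ Gs t, ¬ GoodP Φ q H x)).card ≤
        ∑ t ∈ range N, ((range S ×ˢ range S).filter (fun x : ℕ × ℕ => ∀ q ∈ Gs t, ¬ GoodP Φ q H x)).card := by
      refine le_trans (card_le_card ?_) card_biUnion_le
      intro x hx
      obtain ⟨hx1, t, ht, hx2⟩ := mem_filter.1 hx
      exact mem_biUnion.2 ⟨t, mem_range.2 ht, mem_filter.2 ⟨hx1, hx2⟩⟩
    have h2 : ∀ t ∈ range N, (((range S ×ˢ range S).filter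
        (fun x : ℕ × ℕ => ∀ q ∈ Gs t, ¬ GoodP Φ q H x)).card : ℝ) ≤ (2 / 3 : ℝ) ^ R * (4 * (S : ℝ) ^ 2) := by
      intro t ht
      have h3 := card_box_bad Φ H (Gs t) (hG t) S
      rw [hc t] at h3
      have h4 : ∏ q ∈ Gs t, q ≤ S :=
        (single_le_sum (f := fun t => ∏ q ∈ Gs t, q) (fun _ _ => Nat.zero_le _) ht).trans hS
      have h5 : 3 ^ R * ((range S ×ˢ range S).filter (fun x : ℕ × ℕ => ∀ q ∈ Gs t, ¬ GoodP Φ q H x)).card ≤
          2 ^ R * (4 * S ^ 2) := h3.trans (Nat.mul_le_mul_left _ (by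
            calc (S + ∏ q ∈ Gs t, q) ^ 2 ≤ (S + S) ^ 2 := Nat.pow_le_pow_left (by omega) 2
              _ = 4 * S ^ 2 := by ring))
      have h6 : (3 : ℝ) ^ R * (((range S ×ˢ range S).filter
          (fun x : ℕ × ℕ => ∀ q ∈ Gs t, ¬ GoodP Φ q H x)).card : ℝ) ≤ 2 ^ R * (4 * (S : ℝ) ^ 2) := by
        exact_mod_cast h5
      rw [div_pow, div_mul_eq_mul_div, le_div_iff₀ (by positivity)]
      linarith
    calc (((range S ×ˢ range S).filter
          (fun x : ℕ × ℕ => ∃ t < N, ∀ q ∈ Gs t, ¬ GoodP Φ q H x)).card : ℝ)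
        ≤ ∑ t ∈ range N, (((range S ×ˢ range S).filter
            (fun x : ℕ × ℕ => ∀ q ∈ Gs t, ¬ GoodP Φ q H x)).card : ℝ) := by
          exact_mod_cast h1
      _ ≤ ∑ _t ∈ range N, (2 / 3 : ℝ) ^ R * (4 * (S : ℝ) ^ 2) := sum_le_sum h2
      _ = (2 / 3 : ℝ) ^ R * (4 * N) * (S : ℝ) ^ 2 := by rw [sum_const, card_range, nsmul_eq_mul]; ring
      _ ≤ η * (S : ℝ) ^ 2 := by
          apply mul_le_mul_of_nonneg_right _ (by positivity)
          have h7 : (2 / 3 : ℝ) ^ R * (4 * N + 1) < η := by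
            rwa [lt_div_iff₀ (by positivity)] at hR
          have h8 : (0 : ℝ) ≤ (2 / 3 : ℝ) ^ R := by positivity
          nlinarith

end Pool.Agent.N688.NC
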