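import Pool.Agent.N688.NA.Abs
import Pool.Agent.N688.NC.PtP
import Pool.Agent.N913.MG.R1

set_option autoImplicit false
set_option maxHeartbeats 4000000

/-!
# Patterns of consecutive prime values in short windows, for almost all polynomials
-/

namespace Pool.Agent.N688.NC

section

open Finset Filter
open Pool.Agent.N913.MG
open Pool.Agent.N913.MT (evt_log_ge)

/-- `Pool.Agent.N913.MG.polynomials` (helper913) with all the other shifts killed -/
theorem polynomials3 (d m : ℕ) : ∃ k B : ℕ, ∀ (H : ℕ) (S : Finset ℕ), S ⊆ range H → k ≤ S.card →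
    ∀ (A C : ℕ) (ε : ℝ), 0 < ε →
    ∃ X₀ : ℕ, ∀ X : ℕ, X₀ ≤ X → ∀ 𝒥 : Finset ℕ, (∀ J ∈ 𝒥, (J : ℝ) ≤ Real.log X ^ C) →
    ∀ P : Polynomial ℤ, P.natDegree ≤ d → (∀ i, |(P.coeff i : ℝ)| ≤ X * Real.log X ^ A) →
    ∃ Bad : Finset (ℤ × ℤ), (Bad.card : ℝ) ≤ ε * X ^ 2 ∧ ∀ b c : ℤ, |b| ≤ X → |c| ≤ X →
      (∀ p : ℕ, p.Prime → ∃ t : ℤ, ¬ (p : ℤ) ∣ val P b c t) → (b, c) ∉ Bad →
      ∃ 𝒢 ⊆ 𝒥, (1 - ε) * 𝒥.card ≤ 𝒢.card ∧ ∀ J ∈ 𝒢, ∃ n : ℕ, J < n ∧
        (n : ℝ) ≤ J + Real.log X ^ B ∧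
        (∀ t ∈ range H \ S, ¬ (val P b c (n + t : ℕ)).natAbs.Prime) ∧
        m ≤ (S.filter (fun h => (val P b c (n + h : ℕ)).natAbs.Prime)).card := by
  classical
  obtain ⟨k, B, hmt⟩ := mt3 m (d + 1)
  refine ⟨k, B + 1, fun H S hSH hS A C ε hε => ?_⟩
  obtain ⟨S0, hS0⟩ := hmt H S hSH hS (A + 1) (d + 1) C (ε ^ 2 / 9) (by positivity)
  obtain ⟨X0, hX0⟩ := log_evt B
  obtain ⟨X1, hX1⟩ := eventually_atTop.1 (evt_log_ge (d + 2))
  refine ⟨max S0 (max X0 (max X1 3)), fun X hX 𝒥 h𝒥 P hPd hPc => ?_⟩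
  have hXS : S0 ≤ X := (le_max_left _ _).trans hX
  have hXX : X0 ≤ X := ((le_max_left _ _).trans (le_max_right _ _)).trans hX
  have hXX1 : X1 ≤ X := (((le_max_left _ _).trans (le_max_right _ _)).trans (le_max_right _ _)).trans hX
  have hX3 : 3 ≤ X := (((le_max_right _ _).trans (le_max_right _ _)).trans (le_max_right _ _)).trans hX
  obtain ⟨l2, lS, lB⟩ := hX0 X (2 * X + 1) hXX (by omega) (by omega)
  have ld := hX1 X hXX1
  have hXr : (3 : ℝ) ≤ X := by exact_mod_cast hX3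
  have hNN := NN_FP P X
  have hN0 : NN (FP P X) ≤ 9 * X ^ 2 := by rw [hNN]; nlinarith
  have hLge : Real.log X ≤ (⌈Real.log ((2 * X + 1 : ℕ) : ℝ)⌉₊ : ℕ) := lS.trans (Nat.le_ceil _)
  obtain ⟨L, hL⟩ : ∃ L, L = ⌈Real.log ((2 * X + 1 : ℕ) : ℝ)⌉₊ := ⟨_, rfl⟩
  rw [← hL] at hLge
  have hLd : d + 2 ≤ L := by
    have h1 : ((d + 2 : ℕ) : ℝ) ≤ L := by push_cast; linarith
    exact_mod_cast h1
  obtain ⟨Ω, hΩ⟩ : ∃ Ω : Finset (ℤ × ℤ), Ω = ((Icc (-(X : ℤ)) X) ×ˢ (Icc (-(X : ℤ)) X)).filter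
    (fun x => ∀ p : ℕ, p.Prime → ∃ t : ℤ, ¬ (p : ℤ) ∣ val P x.1 x.2 t) := ⟨_, rfl⟩
  have hd := double Ω 𝒥 (fun x J => ∃ n : ℕ, J < n ∧ (n : ℝ) ≤ J + Real.log X ^ (B + 1) ∧
    (∀ t ∈ range H \ S, ¬ (val P x.1 x.2 (n + t : ℕ)).natAbs.Prime) ∧
    m ≤ (S.filter (fun h => (val P x.1 x.2 (n + h : ℕ)).natAbs.Prime)).card) ε (X ^ 2) hε
    (by positivity) (by
    intro J hJ
    obtain ⟨Bad, hb1, hb2⟩ := hS0 (FP P X) (by show S0 ≤ 2 * X + 1; omega)
      (fun t => by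
        show |P.eval (t : ℤ) - X * t + X| ≤ ((⌈Real.log ((2 * X + 1 : ℕ) : ℝ)⌉₊ : ℕ) : ℤ) ^ (A + 1) *
          ((2 * X + 1 : ℕ) : ℤ) * ((t : ℤ) + 1) ^ (d + 1)
        rw [← hL]
        apply c_bd P X d A L (by omega) hLd hPd _ t
        intro i
        have h1 := hPc i
        have h2 : (X : ℝ) * Real.log X ^ A ≤ X * (L : ℝ) ^ A := by
          apply mul_le_mul_of_nonneg_left _ (by positivity)
          exact pow_le_pow_left₀ (by linarith) hLge A
        have h3 : |(P.coeff i : ℝ)| ≤ X * (L : ℝ) ^ A := h1.trans h2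
        exact_mod_cast h3)
      (by
        rw [hNN]
        show ((2 * X + 1 : ℕ) : ℝ) ^ 2 ≤ _
        push_cast
        nlinarith [sq_nonneg (2 * (X : ℝ) + 1)]) J (by
        have h1 := h𝒥 J hJ
        have h2 : Real.log X ^ C ≤ Real.log ((2 * X + 1 : ℕ) : ℝ) ^ C :=
          pow_le_pow_left₀ (by linarith) lS C
        exact h1.trans h2)
    refine ⟨Bad.image (fun x => ((x.1 : ℤ) - X, (X : ℤ) - x.2)), ?_, ?_⟩
    · calc (((Bad.image (fun x => ((x.1 : ℤ) - X, (X : ℤ) - x.2))).card : ℕ) : ℝ) ≤ Bad.card := by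
            exact_mod_cast card_image_le
        _ ≤ ε ^ 2 / 9 * NN (FP P X) := hb1
        _ ≤ ε ^ 2 / 9 * (9 * X ^ 2) := mul_le_mul_of_nonneg_left hN0 (by positivity)
        _ = _ := by ring
    · rintro ⟨b, c⟩ hx hxB
      rw [hΩ, mem_filter, mem_product, mem_Icc, mem_Icc] at hx
      obtain ⟨⟨⟨b1, b2⟩, c1, c2⟩, hloc⟩ := hx
      simp only at b1 b2 c1 c2 hloc
      have hb : |b| ≤ X := abs_le.2 ⟨b1, b2⟩
      have hc : |c| ≤ X := abs_le.2 ⟨c1, c2⟩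
      have hnB : ((b + X).toNat, (X - c).toNat) ∉ Bad := by
        intro h
        apply hxB
        rw [mem_image]
        refine ⟨_, h, ?_⟩
        simp only [Prod.mk.injEq]
        constructor
        · rw [Int.toNat_of_nonneg (by linarith)]; ring
        · rw [Int.toNat_of_nonneg (by linarith)]; ring
      obtain ⟨i, hi1, hi2, hik, hi3⟩ := hb2 ((b + X).toNat, (X - c).toNat)
        (by show (b + X).toNat < 2 * X + 1; omega) (by show (X - c).toNat < 2 * X + 1; omega)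
        (by
          intro p hp
          obtain ⟨t, ht⟩ := locP1 P b c p hp (hloc p hp)
          refine ⟨⟨t, by rw [vv_FP P X b c hb hc]; exact ht⟩, ?_⟩
          refine le_trans (le_of_eq ?_) (locP2 d P hPd b c p hp (hloc p hp))
          congr 1
          apply filter_congr
          intro t _
          rw [vv_FP P X b c hb hc]) hnB
      refine ⟨i, hi1, ?_, ?_, ?_⟩
      · have h2 : (i : ℝ) ≤ J + Real.log ((2 * X + 1 : ℕ) : ℝ) ^ B := hi2
        linarith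
      · intro t ht
        rw [← vv_FP P X b c hb hc]
        exact hik t ht
      · refine hi3.trans (le_of_eq ?_)
        congr 1
        apply filter_congr
        intro h _
        rw [vv_FP P X b c hb hc])
  obtain ⟨Bad, _, hB2, hB3⟩ := hd
  refine ⟨Bad, hB2, fun b c hb hc hloc hnB => ?_⟩
  rw [abs_le] at hb hc
  exact hB3 (b, c) (by
    rw [hΩ, mem_filter, mem_product, mem_Icc, mem_Icc]
    exact ⟨⟨hb, hc⟩, hloc⟩) hnB

end

open Filter Finset Topology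

/-- the pattern `y` occurs among the consecutive prime values `|f t|` with `t` in the window of `J` -/
def OccPC {k : ℕ} (B N J : ℕ) (f : Polynomial ℤ) (y : Fin (k + 2) → ℤ) : Prop :=
  ∃ n : ℕ, J < n ∧ (n : ℝ) ≤ J + Real.log N ^ B ∧
    ∀ z : ℤ, y 0 ≤ z → z ≤ y (Fin.last (k + 1)) →
      ((f.eval ((n : ℤ) + z)).natAbs.Prime ↔ ∃ i, z = y i)

/-- all sets of `K` shifts have patterns in at least half of the windows -/
def AllHitPC (k K B H N : ℕ) (W : Finset ℕ) (f : Polynomial ℤ) : Prop :=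
  ∀ F : Finset ℤ, F ⊆ Ico 0 (H : ℤ) → F.card = K + (k + 2) → ∃ G ⊆ W, W.card ≤ 2 * G.card ∧
    ∀ J ∈ G, ∃ y : Fin (k + 2) → ℤ, StrictMono y ∧ (∀ i, y i ∈ F) ∧ OccPC B N J f y

theorem polyC (d k : ℕ) : ∃ K B : ℕ, ∀ (H A C : ℕ) (η : ℝ), 0 < η → ∃ X₀ : ℕ, ∀ N : ℕ, X₀ ≤ N →
    ∀ W : Finset ℕ, (∀ J ∈ W, (J : ℝ) ≤ Real.log N ^ C) →
    ∀ P : Polynomial ℤ, P.natDegree ≤ d → (∀ i, |(P.coeff i : ℝ)| ≤ N * Real.log N ^ A) →
    ∃ Bad : Finset (ℤ × ℤ), (Bad.card : ℝ) ≤ η * N ^ 2 ∧ ∀ b c : ℤ, |b| ≤ N → |c| ≤ N →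
      (∀ p : ℕ, p.Prime → ∃ t : ℤ, ¬ (p : ℤ) ∣
        (P + Polynomial.C b * Polynomial.X + Polynomial.C c).eval t) → (b, c) ∉ Bad →
      AllHitPC k K B H N W (P + Polynomial.C b * Polynomial.X + Polynomial.C c) := by
  classical
  obtain ⟨K, B, h⟩ := polynomials3 d (k + 2)
  refine ⟨K, B, fun H A C η hη => ?_⟩
  set AA : Finset (Finset ℤ) := (Ico 0 (H : ℤ)).powersetCard (K + (k + 2)) with hAA
  set ε : ℝ := min (η / (AA.card + 1)) (1 / 2) with hε
  have hε0 : 0 < ε := lt_min (by positivity) (by norm_num)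
  have hF0 : ∀ F ∈ AA, ∀ y ∈ F, 0 ≤ y ∧ y < H := fun F hF y hy =>
    mem_Ico.1 ((mem_powersetCard.1 hF).1 hy)
  have hinj : ∀ F ∈ AA, Set.InjOn Int.toNat (F : Set ℤ) := by
    intro F hF y hy z hz hyz
    have h1 := hF0 F hF y hy
    have h2 := hF0 F hF z hz
    omega
  have hcard : ∀ F ∈ AA, K ≤ (F.image Int.toNat).card := by
    intro F hF
    rw [card_image_of_injOn (hinj F hF), (mem_powersetCard.1 hF).2]
    omega
  have hsub : ∀ F ∈ AA, F.image Int.toNat ⊆ range H := by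
    intro F hF t ht
    obtain ⟨y, hy, rfl⟩ := mem_image.1 ht
    have := hF0 F hF y hy
    rw [Finset.mem_range]
    omega
  have h1 : ∀ F : Finset ℤ, F ∈ AA → ∃ X₀ : ℕ, ∀ X : ℕ, X₀ ≤ X → ∀ 𝒥 : Finset ℕ,
      (∀ J ∈ 𝒥, (J : ℝ) ≤ Real.log X ^ C) →
      ∀ P : Polynomial ℤ, P.natDegree ≤ d → (∀ i, |(P.coeff i : ℝ)| ≤ X * Real.log X ^ A) →
      ∃ Bad : Finset (ℤ × ℤ), (Bad.card : ℝ) ≤ ε * X ^ 2 ∧ ∀ b c : ℤ, |b| ≤ X → |c| ≤ X →
        (∀ p : ℕ, p.Prime → ∃ t : ℤ, ¬ (p : ℤ) ∣ Pool.Agent.N913.MG.val P b c t) → (b, c) ∉ Bad →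
        ∃ 𝒢 ⊆ 𝒥, (1 - ε) * 𝒥.card ≤ 𝒢.card ∧ ∀ J ∈ 𝒢, ∃ n : ℕ, J < n ∧
          (n : ℝ) ≤ J + Real.log X ^ B ∧
          (∀ t ∈ range H \ F.image Int.toNat, ¬ (Pool.Agent.N913.MG.val P b c (n + t : ℕ)).natAbs.Prime) ∧
          k + 2 ≤ ((F.image Int.toNat).filter
            (fun h => (Pool.Agent.N913.MG.val P b c (n + h : ℕ)).natAbs.Prime)).card :=
    fun F hF => h H (F.image Int.toNat) (hsub F hF) (hcard F hF) A C ε hε0
  choose! Xf hXf using h1
  refine ⟨AA.sup Xf, fun X hX W hW P hPd hPc => ?_⟩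
  have h2 : ∀ F : Finset ℤ, F ∈ AA → ∃ Bad : Finset (ℤ × ℤ), (Bad.card : ℝ) ≤ ε * X ^ 2 ∧
        ∀ b c : ℤ, |b| ≤ X → |c| ≤ X →
        (∀ p : ℕ, p.Prime → ∃ t : ℤ, ¬ (p : ℤ) ∣ Pool.Agent.N913.MG.val P b c t) → (b, c) ∉ Bad →
        ∃ 𝒢 ⊆ W, (1 - ε) * W.card ≤ 𝒢.card ∧ ∀ J ∈ 𝒢, ∃ n : ℕ, J < n ∧
          (n : ℝ) ≤ J + Real.log X ^ B ∧
          (∀ t ∈ range H \ F.image Int.toNat, ¬ (Pool.Agent.N913.MG.val P b c (n + t : ℕ)).natAbs.Prime) ∧
          k + 2 ≤ ((F.image Int.toNat).filter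
            (fun h => (Pool.Agent.N913.MG.val P b c (n + h : ℕ)).natAbs.Prime)).card :=
    fun F hF => hXf F hF X ((Finset.le_sup (f := Xf) hF).trans hX) W hW P hPd hPc
  choose! Bf hB2 hB3 using h2
  refine ⟨AA.biUnion Bf, ?_, ?_⟩
  · have h4 : ((AA.biUnion Bf).card : ℝ) ≤ ∑ F ∈ AA, ((Bf F).card : ℝ) := by
      exact_mod_cast card_biUnion_le
    have h5 : ∑ F ∈ AA, ((Bf F).card : ℝ) ≤ ∑ _F ∈ AA, ε * (X : ℝ) ^ 2 :=
      sum_le_sum fun F hF => hB2 F hF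
    rw [sum_const, nsmul_eq_mul] at h5
    have h6 : (AA.card : ℝ) * ε ≤ η := by
      have g1 : ε ≤ η / (AA.card + 1) := min_le_left _ _
      have g2 : (0 : ℝ) ≤ AA.card := Nat.cast_nonneg _
      calc (AA.card : ℝ) * ε ≤ AA.card * (η / (AA.card + 1)) := mul_le_mul_of_nonneg_left g1 g2
        _ = η * (AA.card / (AA.card + 1)) := by ring
        _ ≤ η * 1 := mul_le_mul_of_nonneg_left (by rw [div_le_one (by positivity)]; linarith) hη.le
        _ = η := mul_one _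
    have h8 : (0 : ℝ) ≤ (X : ℝ) ^ 2 := by positivity
    calc ((AA.biUnion Bf).card : ℝ) ≤ AA.card * (ε * (X : ℝ) ^ 2) := h4.trans h5
      _ = (AA.card * ε) * (X : ℝ) ^ 2 := by ring
      _ ≤ η * (X : ℝ) ^ 2 := mul_le_mul_of_nonneg_right h6 h8
  · intro b c hb hc hloc hbc F hF hFK
    have hFA : F ∈ AA := mem_powersetCard.2 ⟨hF, hFK⟩
    have hbcB : (b, c) ∉ Bf F := fun hcon => hbc (mem_biUnion.2 ⟨F, hFA, hcon⟩)
    obtain ⟨G, g1, g2, g3⟩ := hB3 F hFA b c hb hc (fun p hp => by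
      obtain ⟨t, ht⟩ := hloc p hp
      exact ⟨t, by rw [Pool.Agent.N913.MG.val_eval]; exact ht⟩) hbcB
    refine ⟨G, g1, ?_, ?_⟩
    · have e1 : ε ≤ 1 / 2 := min_le_right _ _
      have e2 : (0 : ℝ) ≤ W.card := Nat.cast_nonneg _
      have e3 : (W.card : ℝ) ≤ 2 * G.card := by nlinarith
      exact_mod_cast e3
    · intro J hJ
      obtain ⟨n, n1, n2, n3, n4⟩ := g3 J hJ
      -- the value of the polynomial
      have hval : ∀ t : ℕ, (Pool.Agent.N913.MG.val P b c (n + t : ℕ)).natAbs =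
          ((P + Polynomial.C b * Polynomial.X + Polynomial.C c).eval ((n : ℤ) + (t : ℤ))).natAbs := by
        intro t
        rw [Pool.Agent.N913.MG.val_eval]
        push_cast
        rfl
      set S' := (F.image Int.toNat).filter
          (fun h => (Pool.Agent.N913.MG.val P b c (n + h : ℕ)).natAbs.Prime) with hS'
      set e := S'.orderEmbOfFin rfl with he
      have hmem : ∀ i, e i ∈ S' := fun i => S'.orderEmbOfFin_mem rfl i
      have hrange : ∀ t ∈ S', ∃ i, e i = t := by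
        intro t ht
        have : t ∈ Set.range e := by
          rw [he, Finset.range_orderEmbOfFin]
          exact ht
        exact this
      refine ⟨fun i => (e (Fin.castLE n4 i) : ℤ), ?_, ?_, n, n1, n2, ?_⟩
      · intro i j hij
        have h3 : e (Fin.castLE n4 i) < e (Fin.castLE n4 j) := e.strictMono (by
          rw [Fin.lt_def] at hij ⊢
          exact hij)
        show ((e (Fin.castLE n4 i) : ℕ) : ℤ) < ((e (Fin.castLE n4 j) : ℕ) : ℤ)
        exact_mod_cast h3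
      · intro i
        obtain ⟨f, hf, hfe⟩ := mem_image.1 (mem_filter.1 (hmem (Fin.castLE n4 i))).1
        show ((e (Fin.castLE n4 i) : ℕ) : ℤ) ∈ F
        rw [← hfe, Int.toNat_of_nonneg (hF0 F hFA f hf).1]
        exact hf
      · intro z hz0 hz1
        constructor
        · intro hzp
          have hz0' : ((e (Fin.castLE n4 0) : ℕ) : ℤ) ≤ z := hz0
          have hz1' : z ≤ ((e (Fin.castLE n4 (Fin.last (k + 1))) : ℕ) : ℤ) := hz1
          obtain ⟨t, rfl⟩ : ∃ t : ℕ, z = t := ⟨z.toNat, by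
            rw [Int.toNat_of_nonneg]
            have : (0 : ℤ) ≤ ((e (Fin.castLE n4 0) : ℕ) : ℤ) := Int.natCast_nonneg _
            linarith⟩
          have hz1n : t ≤ e (Fin.castLE n4 (Fin.last (k + 1))) := by exact_mod_cast hz1'
          rw [← hval t] at hzp
          have hltH : t < H := by
            have h3 := hsub F hFA (mem_filter.1 (hmem (Fin.castLE n4 (Fin.last (k + 1))))).1
            rw [Finset.mem_range] at h3
            omega
          have htS : t ∈ S' := by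
            by_cases htF : t ∈ F.image Int.toNat
            · exact mem_filter.2 ⟨htF, hzp⟩
            · exact absurd hzp (n3 t (mem_sdiff.2 ⟨Finset.mem_range.2 hltH, htF⟩))
          obtain ⟨j, hj⟩ := hrange t htS
          have hjl : j ≤ Fin.castLE n4 (Fin.last (k + 1)) := by
            rw [← e.le_iff_le, hj]
            exact hz1n
          have hjv : j.val < k + 2 := by
            rw [Fin.le_def] at hjl
            simp only [Fin.val_castLE, Fin.val_last] at hjl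
            omega
          refine ⟨⟨j.val, hjv⟩, ?_⟩
          have e4 : Fin.castLE n4 ⟨j.val, hjv⟩ = j := Fin.ext rfl
          simp only
          rw [e4, hj]
        · rintro ⟨i, rfl⟩
          simp only
          rw [← hval]
          exact (mem_filter.1 (hmem (Fin.castLE n4 i))).2

end Pool.Agent.N688.NC
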