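import Pool.Agent.N913.MT.G1
import Pool.Agent.N688.NC.Cls
import Pool.Agent.N688.NC.Cnt

set_option autoImplicit false
set_option maxHeartbeats 4000000

/-!
# Clusters of primes `(n + h) ^ 2 + a` with no other primes among the shifts, for almost all `a`

The proof of `Pool.Agent.N913.MT.pointwise` (helper913), with positions for which all the other shifts are killed.
-/

namespace Pool.Agent.N688.NC

open Finset Filter
open Pool.Agent.N913.MT

/-- one window -/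
theorem pointwise2 (m : ℕ) : ∃ k B : ℕ, ∀ (H : ℕ) (S : Finset ℕ), S ⊆ range H → k ≤ S.card →
    ∀ (C : ℕ) (ε : ℝ), 0 < ε →
    ∃ X₀ : ℕ, ∀ X : ℕ, X₀ ≤ X → ∀ J : ℕ, (J : ℝ) ≤ Real.log X ^ C →
    ∃ Bad ⊆ Icc (-(X : ℤ)) (-1), (Bad.card : ℝ) ≤ ε * X ∧ ∀ a ∈ Icc (-(X : ℤ)) (-1), a ∉ Bad →
      ∃ n : ℕ, Real.sqrt (-(a : ℝ)) + J < n ∧
        (n : ℝ) ≤ Real.sqrt (-(a : ℝ)) + J + Real.log X ^ B ∧
        (∀ t ∈ range H \ S, ¬ Nat.Prime (((n + t : ℕ) : ℤ) ^ 2 + a).natAbs) ∧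
        m ≤ (S.filter (fun h => Nat.Prime (((n + h : ℕ) : ℤ) ^ 2 + a).natAbs)).card := by
  classical
  obtain ⟨c0, hc0, zc, hzc⟩ := Wphi
  obtain ⟨K, hK⟩ : ∃ K, K = ⌈12096000 * (m : ℝ) / c0⌉₊ := ⟨_, rfl⟩
  have hK1 : 12096000 * (m : ℝ) < c0 * (K + 1) := by
    have h1 : 12096000 * (m : ℝ) / c0 ≤ K := by rw [hK]; exact Nat.le_ceil _
    rw [div_le_iff₀ hc0] at h1
    nlinarith
  obtain ⟨b, hb⟩ : ∃ b, b = 12 * 2 ^ (2 * (2 * 2 ^ K)) + 4 := ⟨_, rfl⟩
  refine ⟨(2 * 2 ^ K).factorial * 2 ^ K, b + 4, fun H S hSH hS C ε hε => ?_⟩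
  obtain ⟨D, hD⟩ : ∃ D, D = (2 * 2 ^ K).factorial := ⟨_, rfl⟩
  have hD0 : 0 < D := by rw [hD]; exact Nat.factorial_pos _
  rw [← hD] at hS
  obtain ⟨y, _, hy⟩ := exists_le_card_fiber_of_mul_le_card_of_maps_to
    (s := S) (t := range D) (f := fun x => x % D) (n := 2 ^ K)
    (fun x _ => mem_range.2 (Nat.mod_lt _ hD0)) ⟨0, mem_range.2 hD0⟩ (by rw [card_range]; exact hS)
  obtain ⟨T, hT1, hT2⟩ := exists_subset_card_eq hy
  have hTS : T ⊆ S := hT1.trans (filter_subset _ _)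
  have hTD : ∀ x ∈ T, x % D = y := fun x hx => (mem_filter.1 (hT1 hx)).2
  have hJ : Fintype.card ↥T = 2 ^ K := by rw [Fintype.card_coe, hT2]
  have hbJ : b = 12 * 2 ^ (Fintype.card (Fin 2 × Bool × ↥T)) + 4 := by
    rw [hb, Fintype.card_prod, Fintype.card_prod, hJ, Fintype.card_fin, Fintype.card_bool]
  have hcong : ∀ p : ℕ, p.Prime → p ≤ 2 * Fintype.card ↥T → ∀ j j' : ↥T,
      (p : ℤ) ∣ (((j : ℕ)) : ℤ) - ((j' : ℕ) : ℤ) := by
    intro p hp hpl j j'
    rw [hJ] at hpl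
    have h1 : p ∣ D := by rw [hD]; exact Nat.dvd_factorial hp.pos hpl
    have h2 : (j' : ℕ) ≡ (j : ℕ) [MOD D] := by
      unfold Nat.ModEq
      rw [hTD _ j.2, hTD _ j'.2]
    exact dvd_trans (by exact_mod_cast h1) h2.dvd
  -- the primes which kill the other shifts
  obtain ⟨Gs, Pm, hG1, hG2, hG3, XG, hG4⟩ := kill_family H (ε / 4) (by positivity)
  set Kl : Finset ℕ := range H \ S with hKl
  obtain ⟨θ, hθ⟩ : ∃ θ : ℝ, θ = min (1 / 2) (ε / 2 / (176 * (2 ^ K + 1))) := ⟨_, rfl⟩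
  have hθ0 : 0 < θ := by rw [hθ]; apply lt_min (by norm_num); positivity
  have hθ1 : θ ≤ 1 / 2 := by rw [hθ]; exact min_le_left _ _
  have hθ2 : 176 * ((2 : ℝ) ^ K + 1) * θ ≤ ε / 2 := by
    have h1 : θ ≤ ε / 2 / (176 * (2 ^ K + 1)) := by rw [hθ]; exact min_le_right _ _
    rw [le_div_iff₀ (by positivity)] at h1
    linarith
  obtain ⟨X0, hX0⟩ := class_thm2 (J := ↥T) K m hJ c0 hc0 zc hzc hK1 (fun j => (j : ℕ))
    (fun j j' hjj h => hjj (Subtype.ext h)) (T.sup id)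
    (fun j => le_sup (f := id) j.2) b (C + 1) hbJ θ hθ0 hθ1
  obtain ⟨X1, hX1⟩ := zX_evt (Pm + 1)
  obtain ⟨X2, hX2⟩ := eventually_atTop.1 (evt_log_ge 2)
  refine ⟨max (max (max X0 XG) (max X1 X2)) (⌈4 * ((Pm : ℝ) + 1) ^ 2 / ε⌉₊ + 1), fun X hX J hJl => ?_⟩
  have hXX0 : X0 ≤ X := (le_max_left _ _).trans ((le_max_left _ _).trans ((le_max_left _ _).trans hX))
  have hXXG : XG ≤ X := (le_max_right _ _).trans ((le_max_left _ _).trans ((le_max_left _ _).trans hX))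
  have hXX1 : X1 ≤ X := (le_max_left _ _).trans ((le_max_right _ _).trans ((le_max_left _ _).trans hX))
  have hXX2 : X2 ≤ X := (le_max_right _ _).trans ((le_max_right _ _).trans ((le_max_left _ _).trans hX))
  have hXX3 : ⌈4 * ((Pm : ℝ) + 1) ^ 2 / ε⌉₊ ≤ X := by
    have := (le_max_right _ _).trans hX
    omega
  have hlog2 : (2 : ℝ) ≤ Real.log X := hX2 X hXX2
  have hzX : Pm + 1 ≤ zX X := hX1 X hXX1
  have hJ1 : ((J + 1 : ℕ) : ℝ) ≤ Real.log X ^ (C + 1) := by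
    have h1 : (1 : ℝ) ≤ Real.log X ^ C := one_le_pow₀ (by linarith)
    push_cast
    calc (J : ℝ) + 1 ≤ Real.log X ^ C + Real.log X ^ C := by linarith
      _ = 2 * Real.log X ^ C := by ring
      _ ≤ Real.log X * Real.log X ^ C := mul_le_mul_of_nonneg_right hlog2 (by linarith)
      _ = Real.log X ^ (C + 1) := by ring
  obtain ⟨_, hWG, hS4, hW1, hcls⟩ := hX0 X hXX0 (J + 1) hJ1
  have hWz : WX X = Wz (zX X) := rfl
  -- the good classes
  have hcls' : ∀ s0 r0 : ℕ, ∃ B ⊆ CS (SX X) (WX X) s0 r0,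
      (B.card : ℝ) ≤ 44 * (Fintype.card ↥T + 1) * θ * ((SX X : ℝ) ^ 2 / (WX X : ℝ) ^ 2) ∧
      ((∀ t < H, ∃ q ∈ Gs t, Good q H ((s0 : ℤ) ^ 2 + r0)) →
        ∀ n ∈ CS (SX X) (WX X) s0 r0, n ∉ B → ∃ i : ℕ, J + 1 < i ∧ i ≤ J + 1 + WX X * GX b X ∧
        (∀ t ∈ Kl, ∃ q : ℕ, q.Prime ∧ q < Pm ∧ (q : ℤ) ∣ vv (i + t) n) ∧
        m ≤ ((univ : Finset ↥T).filter
          (fun l => (2 * n.1 * (i + (l : ℕ)) + (i + (l : ℕ)) ^ 2 - n.2).Prime)).card) := by
    intro s0 r0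
    by_cases hg : ∀ t < H, ∃ q ∈ Gs t, Good q H ((s0 : ℤ) ^ 2 + r0)
    · choose! q hq1 hq2 using hg
      have hKlH : ∀ t ∈ Kl, t < H := fun t ht => mem_range.1 (mem_sdiff.1 ht).1
      obtain ⟨i0, h1, h2, h3, h4⟩ := exists_i0k (J := ↥T) (fun j => (j : ℕ)) (zX X) hcong s0 r0 (J + 1) H
        (fun j => mem_range.1 (hSH (hTS j.2))) Kl (fun t ht => ⟨hKlH t ht, fun j hj =>
          (mem_sdiff.1 ht).2 (hj ▸ hTS j.2)⟩) q (fun t ht => by
          have g1 := hG1 t (q t) (hq1 t (hKlH t ht))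
          have g2 := hG2 t (hKlH t ht) (q t) (hq1 t (hKlH t ht))
          exact ⟨g1.1, by omega, by omega, hq2 t (hKlH t ht)⟩) (by
          intro t ht t' ht' htt
          by_contra hne
          exact (disjoint_left.1 (hG3 t t' hne)) (hq1 t (hKlH t ht)) (htt ▸ hq1 t' (hKlH t' ht')))
      obtain ⟨B, hB1, hB2, hB3⟩ := hcls s0 r0 i0 h1 h2 h3
      refine ⟨B, hB1, hB2, fun _ n hn hnB => ?_⟩
      obtain ⟨i, g1, g2, g3, g4⟩ := hB3 n hn hnB
      refine ⟨i, g1, g2, fun t ht => ?_, g4⟩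
      have g5 := h4 t ht i g3
      have g6 := hG1 t (q t) (hq1 t (hKlH t ht))
      have g7 := hG2 t (hKlH t ht) (q t) (hq1 t (hKlH t ht))
      refine ⟨q t, g6.1, g7, ?_⟩
      have g8 : q t ∣ WX X := by
        rw [hWz, dvd_Wz _ _ g6.1]
        omega
      have hn' := (mem_filter.1 hn).2
      have a1 : ((q t : ℕ) : ℤ) ∣ (s0 : ℤ) - n.1 := Nat.modEq_iff_dvd.1 (hn'.2.1.of_dvd g8)
      have a2 : ((q t : ℕ) : ℤ) ∣ (r0 : ℤ) - n.2 := Nat.modEq_iff_dvd.1 (hn'.2.2.of_dvd g8)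
      have e : vv (i + t) n = vv (i + t) (s0, r0) - ((s0 : ℤ) - n.1) * (2 * ((i + t : ℕ) : ℤ)) +
          ((r0 : ℤ) - n.2) := by
        unfold vv
        ring
      rw [e]
      exact dvd_add (dvd_sub g5 (a1.mul_right _)) a2
    · exact ⟨∅, empty_subset _, by rw [card_empty, Nat.cast_zero]; positivity,
        fun h => absurd h hg⟩
  choose B hB1 hB2 hB3 using hcls'
  obtain ⟨W, hW⟩ : ∃ W, W = WX X := ⟨_, rfl⟩
  rw [← hW] at hWG hW1 hB1 hB2 hB3
  -- the exceptional integers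
  set Bad1 : Finset ℤ := (((range W ×ˢ range W).biUnion (fun c => B c.1 c.2)).image
    (fun n => -((n.1 ^ 2 + n.2 : ℕ) : ℤ))).filter (fun a => a ∈ Icc (-(X : ℤ)) (-1)) with hBad1
  set Bad2 : Finset ℤ := ((Icc 1 X).filter (fun a : ℕ => ∃ t < H, ∀ q ∈ Gs t, ¬ Good q H (a : ℤ))).image
    (fun a : ℕ => -(a : ℤ)) with hBad2
  set Bad3 : Finset ℤ := (Icc (-(X : ℤ)) (-1)).filter (fun a => -((Pm : ℤ) + 1) ^ 2 ≤ a) with hBad3
  refine ⟨Bad1 ∪ Bad2 ∪ Bad3, ?_, ?_, ?_⟩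
  · apply union_subset (union_subset _ _) (filter_subset _ _)
    · intro a ha
      exact (mem_filter.1 ha).2
    · intro a ha
      obtain ⟨a', ha', rfl⟩ := mem_image.1 ha
      have h1 := mem_Icc.1 (mem_filter.1 ha').1
      rw [mem_Icc]
      constructor
      · have : (a' : ℤ) ≤ X := by exact_mod_cast h1.2
        linarith
      · have : (1 : ℤ) ≤ a' := by exact_mod_cast h1.1
        linarith
  · have hWr : (1 : ℝ) ≤ W := by exact_mod_cast hW1
    have h1 : Bad1.card ≤ ∑ c ∈ range W ×ˢ range W, (B c.1 c.2).card :=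
      (card_filter_le _ _).trans (card_image_le.trans card_biUnion_le)
    have c1 : (Bad1.card : ℝ) ≤ ε / 2 * X := by
      calc _ ≤ ((∑ c ∈ range W ×ˢ range W, (B c.1 c.2).card : ℕ) : ℝ) := by exact_mod_cast h1
        _ = ∑ c ∈ range W ×ˢ range W, ((B c.1 c.2).card : ℝ) := by push_cast; rfl
        _ ≤ ∑ c ∈ range W ×ˢ range W,
            44 * ((Fintype.card ↥T : ℝ) + 1) * θ * ((SX X : ℝ) ^ 2 / (W : ℝ) ^ 2) :=
            sum_le_sum fun c _ => hB2 c.1 c.2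
        _ = 44 * ((2 : ℝ) ^ K + 1) * θ * (SX X : ℝ) ^ 2 := by
            rw [sum_const, card_product, card_range, nsmul_eq_mul, hJ]
            push_cast
            field_simp
        _ ≤ 44 * ((2 : ℝ) ^ K + 1) * θ * (4 * X) := mul_le_mul_of_nonneg_left hS4 (by positivity)
        _ = (176 * ((2 : ℝ) ^ K + 1) * θ) * X := by ring
        _ ≤ ε / 2 * X := mul_le_mul_of_nonneg_right hθ2 (Nat.cast_nonneg _)
    have c2 : (Bad2.card : ℝ) ≤ ε / 4 * X := by
      refine le_trans ?_ (hG4 X hXXG)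
      exact_mod_cast card_image_le
    have c3 : (Bad3.card : ℝ) ≤ ε / 4 * X := by
      have g1 : Bad3 ⊆ Icc (-((Pm : ℤ) + 1) ^ 2) (-1) := by
        intro a ha
        obtain ⟨g2, g3⟩ := mem_filter.1 ha
        exact mem_Icc.2 ⟨g3, (mem_Icc.1 g2).2⟩
      have g2 := card_le_card g1
      rw [Int.card_Icc] at g2
      have g3 : ((Bad3.card : ℕ) : ℤ) ≤ ((Pm : ℤ) + 1) ^ 2 := by
        have : (0 : ℤ) ≤ ((Pm : ℤ) + 1) ^ 2 := by positivity
        omega
      have g4 : (Bad3.card : ℝ) ≤ ((Pm : ℝ) + 1) ^ 2 := by exact_mod_cast g3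
      have g5 : 4 * ((Pm : ℝ) + 1) ^ 2 / ε ≤ X := (Nat.le_ceil _).trans (by exact_mod_cast hXX3)
      rw [div_le_iff₀ hε] at g5
      linarith
    have c4 : (Bad1 ∪ Bad2 ∪ Bad3).card ≤ Bad1.card + Bad2.card + Bad3.card :=
      (card_union_le _ _).trans (Nat.add_le_add_right (card_union_le _ _) _)
    have c5 : ((Bad1 ∪ Bad2 ∪ Bad3).card : ℝ) ≤ Bad1.card + Bad2.card + Bad3.card := by exact_mod_cast c4
    linarith
  · intro a ha haB
    rw [mem_union, mem_union, not_or, not_or] at haB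
    obtain ⟨⟨haB1, haB2⟩, haB3⟩ := haB
    obtain ⟨ha1, ha2⟩ := mem_Icc.1 ha
    obtain ⟨K', hK'⟩ : ∃ K' : ℕ, a = -(K' : ℤ) := ⟨(-a).toNat, by omega⟩
    have hKX : K' ≤ X := by omega
    have hK1' : 1 ≤ K' := by omega
    have hKP : (Pm + 1) ^ 2 < K' := by
      by_contra hcon
      push Not at hcon
      apply haB3
      rw [hBad3, mem_filter]
      refine ⟨ha, ?_⟩
      rw [hK']
      have : (K' : ℤ) ≤ ((Pm : ℤ) + 1) ^ 2 := by exact_mod_cast hcon
      linarith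
    obtain ⟨s, hs⟩ : ∃ s, s = K'.sqrt := ⟨_, rfl⟩
    have hs1 : s * s ≤ K' := by rw [hs]; exact Nat.sqrt_le K'
    have hs2 : K' < (s + 1) * (s + 1) := by rw [hs]; exact Nat.lt_succ_sqrt K'
    have hsP : Pm ≤ s := by
      by_contra hcon
      push Not at hcon
      have : (s + 1) * (s + 1) ≤ (Pm + 1) ^ 2 := by
        rw [pow_two]
        exact Nat.mul_le_mul (by omega) (by omega)
      omega
    obtain ⟨r, hr⟩ : ∃ r, K' = s * s + r := ⟨K' - s * s, by omega⟩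
    have hr2 : r ≤ 2 * s := by
      have : (s + 1) * (s + 1) = s * s + 2 * s + 1 := by ring
      omega
    have hsX : s < SX X := by
      unfold SX
      rw [hs]
      exact Nat.lt_succ_of_le (Nat.sqrt_le_sqrt hKX)
    have hmem : (s, r) ∈ CS (SX X) W (s % W) (r % W) := by
      unfold CS
      rw [mem_filter, mem_product, mem_range, mem_range]
      refine ⟨⟨hsX, ?_⟩, hr2, (Nat.mod_modEq s W).symm, (Nat.mod_modEq r W).symm⟩
      show r < 2 * SX X
      omega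
    have hnB : (s, r) ∉ B (s % W) (r % W) := by
      intro hB
      apply haB1
      rw [hBad1, mem_filter, mem_image]
      refine ⟨⟨(s, r), ?_, ?_⟩, ha⟩
      · rw [mem_biUnion]
        exact ⟨(s % W, r % W), mem_product.2 ⟨mem_range.2 (Nat.mod_lt _ hW1),
          mem_range.2 (Nat.mod_lt _ hW1)⟩, hB⟩
      · rw [hK', hr]
        push_cast
        ring
    have hgood : ∀ t < H, ∃ q ∈ Gs t, Good q H (((s % W : ℕ) : ℤ) ^ 2 + ((r % W : ℕ) : ℤ)) := by
      intro t ht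
      by_contra hcon
      push Not at hcon
      apply haB2
      rw [hBad2, mem_image]
      refine ⟨K', ?_, hK'.symm⟩
      rw [mem_filter, mem_Icc]
      refine ⟨⟨hK1', hKX⟩, t, ht, fun q hq hgq => hcon q hq (hgq.congr ?_)⟩
      have g1 := hG1 t q hq
      have g2 := hG2 t ht q hq
      have g3 : q ∣ W := by
        rw [hW, hWz, dvd_Wz _ _ g1.1]
        omega
      have b1 : ((q : ℕ) : ℤ) ∣ (s : ℤ) - ((s % W : ℕ) : ℤ) :=
        Nat.modEq_iff_dvd.1 ((Nat.mod_modEq s W).of_dvd g3)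
      have b2 : ((q : ℕ) : ℤ) ∣ (r : ℤ) - ((r % W : ℕ) : ℤ) :=
        Nat.modEq_iff_dvd.1 ((Nat.mod_modEq r W).of_dvd g3)
      have e : (K' : ℤ) - (((s % W : ℕ) : ℤ) ^ 2 + ((r % W : ℕ) : ℤ)) =
          ((s : ℤ) - ((s % W : ℕ) : ℤ)) * (s + ((s % W : ℕ) : ℤ)) + ((r : ℤ) - ((r % W : ℕ) : ℤ)) := by
        rw [hr]
        push_cast
        ring
      rw [e]
      exact dvd_add (b1.mul_right _) b2
    obtain ⟨i, hi1, hi2, hikill, hi3⟩ := hB3 _ _ hgood (s, r) hmem hnB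
    have hval : ∀ l : ℕ, (((s + i + l : ℕ) : ℤ) ^ 2 + a).natAbs = 2 * s * (i + l) + (i + l) ^ 2 - r ∧
        ((((s + i + l : ℕ) : ℤ) ^ 2 + a).natAbs : ℤ) = vv (i + l) (s, r) ∧
        2 * s < (((s + i + l : ℕ) : ℤ) ^ 2 + a).natAbs := by
      intro l
      have h2 : r + 2 * s < 2 * s * (i + l) + (i + l) ^ 2 := by
        have h3 : 2 ≤ i + l := by omega
        have h5 : 0 < (i + l) ^ 2 := by positivity
        calc r + 2 * s ≤ 2 * s + 2 * s := Nat.add_le_add_right hr2 _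
          _ = 2 * s * 2 := by ring
          _ ≤ 2 * s * (i + l) := Nat.mul_le_mul_left _ h3
          _ < _ := Nat.lt_add_of_pos_right h5
      have h4 : (((s + i + l : ℕ) : ℤ) ^ 2 + a) =
          ((2 * s * (i + l) + (i + l) ^ 2 - r : ℕ) : ℤ) := by
        rw [hK', hr, Nat.cast_sub (by omega)]
        push_cast
        ring
      have h5 : (((s + i + l : ℕ) : ℤ) ^ 2 + a).natAbs = 2 * s * (i + l) + (i + l) ^ 2 - r := by
        rw [h4, Int.natAbs_natCast]
      refine ⟨h5, ?_, ?_⟩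
      · rw [h5, Nat.cast_sub (by omega)]
        unfold vv
        push_cast
        ring
      · rw [h5]
        omega
    refine ⟨s + i, ?_, ?_, ?_, ?_⟩
    · have h1 : Real.sqrt (-(a : ℝ)) < s + 1 := by
        rw [hK', hs]
        push_cast
        rw [neg_neg]
        exact Real.real_sqrt_lt_nat_sqrt_succ
      have h2 : (J : ℝ) + 1 + 1 ≤ i := by exact_mod_cast hi1
      push_cast
      linarith
    · have h1 : (s : ℝ) ≤ Real.sqrt (-(a : ℝ)) := by
        rw [hK', hs]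
        push_cast
        rw [neg_neg]
        exact Real.nat_sqrt_le_real_sqrt
      have h2 : (i : ℝ) ≤ J + 1 + ((W * GX b X : ℕ) : ℝ) := by exact_mod_cast hi2
      have h3 : (1 : ℝ) ≤ Real.log X ^ (b + 3) := one_le_pow₀ (by linarith)
      have h4 : Real.log X ^ (b + 3) + Real.log X ^ (b + 3) ≤ Real.log X ^ (b + 4) := by
        calc Real.log X ^ (b + 3) + Real.log X ^ (b + 3) = 2 * Real.log X ^ (b + 3) := by ring
          _ ≤ Real.log X * Real.log X ^ (b + 3) := mul_le_mul_of_nonneg_right hlog2 (by linarith)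
          _ = Real.log X ^ (b + 4) := by ring
      push_cast at h2 hWG ⊢
      linarith
    · intro t ht hp
      obtain ⟨q, hq1, hq2, hq3⟩ := hikill t ht
      obtain ⟨v1, v2, v3⟩ := hval t
      rw [← v2] at hq3
      have h1 : q ∣ (((s + i + t : ℕ) : ℤ) ^ 2 + a).natAbs := by exact_mod_cast hq3
      have h2 := (Nat.prime_dvd_prime_iff_eq hq1 hp).1 h1
      omega
    · refine hi3.trans ?_
      apply card_le_card_of_injOn (fun l : ↥T => (l : ℕ))
      · intro l hl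
        have hl' := (mem_filter.1 (mem_coe.1 hl)).2
        rw [mem_coe, mem_filter]
        refine ⟨hTS l.2, ?_⟩
        rw [(hval l).1]
        exact hl'
      · intro l _ l' _ hll
        exact Subtype.ext hll

open Classical in
/-- from pairs to many windows at once -/
theorem many {α ι : Type} (Ω : Finset α) (W : Finset ι) (P : α → ι → Prop) (ε N : ℝ) (hε : 0 < ε)
    (hN : 0 ≤ N) (h : ∀ J ∈ W, ((Ω.filter (fun a => ¬ P a J)).card : ℝ) ≤ ε ^ 2 * N) :
    ∃ Bad ⊆ Ω, (Bad.card : ℝ) ≤ ε * N ∧ ∀ a ∈ Ω, a ∉ Bad →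
      (1 - ε) * W.card ≤ ((W.filter (fun J => P a J)).card : ℝ) := by
  refine ⟨Ω.filter (fun a => ε * W.card < ((W.filter (fun J => ¬ P a J)).card : ℝ)),
    filter_subset _ _, ?_, ?_⟩
  · rcases Nat.eq_zero_or_pos W.card with h0 | h0
    · have h1 : Ω.filter (fun a => ε * W.card < ((W.filter (fun J => ¬ P a J)).card : ℝ)) = ∅ := by
        rw [filter_eq_empty_iff]
        intro a _
        rw [h0, not_lt]
        have h1 : (W.filter (fun J => ¬ P a J)).card ≤ 0 := h0 ▸ card_filter_le _ _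
        have h2 : ((W.filter (fun J => ¬ P a J)).card : ℝ) ≤ 0 := by exact_mod_cast h1
        simpa using h2
      rw [h1, card_empty, Nat.cast_zero]
      positivity
    · have h0' : (0 : ℝ) < W.card := by exact_mod_cast h0
      set Bd := Ω.filter (fun a => ε * W.card < ((W.filter (fun J => ¬ P a J)).card : ℝ)) with hBd
      have h1 : (Bd.card : ℝ) * (ε * W.card) ≤ ∑ a ∈ Ω, ((W.filter (fun J => ¬ P a J)).card : ℝ) := by
        calc (Bd.card : ℝ) * (ε * W.card) = ∑ _a ∈ Bd, ε * W.card := by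
              rw [sum_const, nsmul_eq_mul]
          _ ≤ ∑ a ∈ Bd, ((W.filter (fun J => ¬ P a J)).card : ℝ) :=
              sum_le_sum fun a ha => (mem_filter.1 ha).2.le
          _ ≤ _ := sum_le_sum_of_subset_of_nonneg (filter_subset _ _) fun _ _ _ => Nat.cast_nonneg _
      have h2 : ∑ a ∈ Ω, ((W.filter (fun J => ¬ P a J)).card : ℝ) =
          ∑ J ∈ W, ((Ω.filter (fun a => ¬ P a J)).card : ℝ) := by
        have h3 : ∑ a ∈ Ω, (W.filter (fun J => ¬ P a J)).card =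
            ∑ J ∈ W, (Ω.filter (fun a => ¬ P a J)).card := by
          simp only [card_filter]
          exact sum_comm
        exact_mod_cast h3
      rw [h2] at h1
      have h3 := sum_le_sum h
      rw [sum_const, nsmul_eq_mul] at h3
      have h4 : (Bd.card : ℝ) * (ε * W.card) ≤ (ε * N) * (ε * W.card) := by
        refine (h1.trans h3).trans (le_of_eq ?_)
        ring
      exact le_of_mul_le_mul_right h4 (by positivity)
  · intro a ha haB
    rw [mem_filter, not_and, not_lt] at haB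
    have h1 := haB ha
    have h2 : (W.filter (fun J => P a J)).card + (W.filter (fun J => ¬ P a J)).card = W.card :=
      card_filter_add_card_filter_not _
    have h3 : ((W.filter (fun J => P a J)).card : ℝ) + ((W.filter (fun J => ¬ P a J)).card : ℝ) = W.card := by
      exact_mod_cast h2
    linarith

end Pool.Agent.N688.NC
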