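import Pool.Agent.N688.NA.Abs
import Pool.Agent.N688.NC.Pt

set_option autoImplicit false
set_option maxHeartbeats 4000000

/-!
# Patterns of consecutive primes of the form `n ^ 2 - A` in short windows, for almost all `A`
-/

open Filter Finset Topology

namespace Pool.Agent.N688.NC

/-- the pattern `y` occurs among the consecutive primes of the form `t ^ 2 - A`, `t` in the window of `J` -/
def OccC {k : ℕ} (B X A J : ℕ) (y : Fin (k + 2) → ℤ) : Prop :=
  ∃ n : ℕ, √(A : ℝ) + J < n ∧ (n : ℝ) ≤ √(A : ℝ) + J + Real.log X ^ B ∧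
    ∀ z : ℤ, y 0 ≤ z → z ≤ y (Fin.last (k + 1)) →
      ((((n : ℤ) + z) ^ 2 - A).toNat.Prime ↔ ∃ i, z = y i)

/-- all sets of `K` shifts have patterns in at least half of the windows -/
def AllHitC (k K B H X : ℕ) (W : Finset ℕ) (A : ℕ) : Prop :=
  ∀ F : Finset ℤ, F ⊆ Ico 0 (H : ℤ) → F.card = K + (k + 2) → ∃ G ⊆ W, W.card ≤ 2 * G.card ∧
    ∀ J ∈ G, ∃ y : Fin (k + 2) → ℤ, StrictMono y ∧ (∀ i, y i ∈ F) ∧ OccC B X A J y

theorem quadC (k : ℕ) : ∃ K B : ℕ, ∀ (H C : ℕ) (η : ℝ), 0 < η → ∃ X₀ : ℕ, ∀ X : ℕ, X₀ ≤ X →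
    ∀ W : Finset ℕ, (∀ J ∈ W, (J : ℝ) ≤ Real.log X ^ C) →
    ∃ Bad ⊆ Icc 1 X, (Bad.card : ℝ) ≤ η * X ∧ ∀ A ∈ Icc 1 X, A ∉ Bad → AllHitC k K B H X W A := by
  classical
  obtain ⟨K, B, h⟩ := pointwise2 (k + 2)
  refine ⟨K, B, fun H C η hη => ?_⟩
  set AA : Finset (Finset ℤ) := (Ico 0 (H : ℤ)).powersetCard (K + (k + 2)) with hAA
  set ε : ℝ := min (η / (AA.card + 1)) (1 / 2) with hε
  have hε0 : 0 < ε := lt_min (by positivity) (by norm_num)
  have hF0 : ∀ F ∈ AA, ∀ y ∈ F, 0 ≤ y ∧ y < H := fun F hF y hy =>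
    mem_Ico.1 ((mem_powersetCard.1 hF).1 hy)
  have hinj : ∀ F ∈ AA, Set.InjOn Int.toNat (F : Set ℤ) := by
    intro F hF y hy z hz hyz
    have h1 := hF0 F hF y hy
    have h2 := hF0 F hF z hz
    omega
  have hcard : ∀ F ∈ AA, K ≤ (F.image Int.toNat).card := by
    intro F hF
    rw [card_image_of_injOn (hinj F hF), (mem_powersetCard.1 hF).2]
    omega
  have hsub : ∀ F ∈ AA, F.image Int.toNat ⊆ range H := by
    intro F hF t ht
    obtain ⟨y, hy, rfl⟩ := mem_image.1 ht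
    have := hF0 F hF y hy
    rw [Finset.mem_range]
    omega
  obtain ⟨P, hP⟩ : ∃ P : Finset ℤ → ℕ → ℤ → ℕ → Prop, P = fun (F : Finset ℤ) (X : ℕ) (a : ℤ) (J : ℕ) => ∃ n : ℕ,
      Real.sqrt (-(a : ℝ)) + J < n ∧ (n : ℝ) ≤ Real.sqrt (-(a : ℝ)) + J + Real.log X ^ B ∧
      (∀ t ∈ range H \ F.image Int.toNat, ¬ Nat.Prime (((n + t : ℕ) : ℤ) ^ 2 + a).natAbs) ∧
      k + 2 ≤ ((F.image Int.toNat).filter (fun h => Nat.Prime (((n + h : ℕ) : ℤ) ^ 2 + a).natAbs)).card :=
    ⟨_, rfl⟩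
  have h1 : ∀ F : Finset ℤ, F ∈ AA → ∃ X₀ : ℕ, ∀ X : ℕ, X₀ ≤ X → ∀ J : ℕ, (J : ℝ) ≤ Real.log X ^ C →
      ∃ Bad ⊆ Icc (-(X : ℤ)) (-1), (Bad.card : ℝ) ≤ ε ^ 2 * X ∧ ∀ a ∈ Icc (-(X : ℤ)) (-1), a ∉ Bad →
        P F X a J := by
    intro F hF
    obtain ⟨X₀, hX₀⟩ := h H (F.image Int.toNat) (hsub F hF) (hcard F hF) C (ε ^ 2) (by positivity)
    refine ⟨X₀, fun X hX J hJ => ?_⟩
    obtain ⟨Bad, g1, g2, g3⟩ := hX₀ X hX J hJ
    refine ⟨Bad, g1, g2, fun a ha haB => ?_⟩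
    rw [hP]
    exact g3 a ha haB
  choose! Xf hXf using h1
  refine ⟨AA.sup Xf, fun X hX W hW => ?_⟩
  have h2 : ∀ F : Finset ℤ, F ∈ AA → ∃ Bad ⊆ Icc (-(X : ℤ)) (-1), (Bad.card : ℝ) ≤ ε * X ∧
      ∀ a ∈ Icc (-(X : ℤ)) (-1), a ∉ Bad →
        (1 - ε) * W.card ≤ ((W.filter (fun J => P F X a J)).card : ℝ) := by
    intro F hF
    apply many (Icc (-(X : ℤ)) (-1)) W (fun a J => P F X a J) ε X hε0 (Nat.cast_nonneg _)
    intro J hJ
    obtain ⟨Bad, g1, g2, g3⟩ := hXf F hF X ((Finset.le_sup (f := Xf) hF).trans hX) J (hW J hJ)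
    refine le_trans ?_ g2
    rw [Nat.cast_le]
    apply card_le_card
    intro a ha
    obtain ⟨ha1, ha2⟩ := mem_filter.1 ha
    by_contra hab
    exact ha2 (g3 a ha1 hab)
  choose! Bf hB1 hB2 hB3 using h2
  set Bad : Finset ℕ := (Icc 1 X).filter (fun A => ∃ F ∈ AA, (-(A : ℤ)) ∈ Bf F) with hBad
  refine ⟨Bad, filter_subset _ _, ?_, ?_⟩
  · have h3 : Bad.card ≤ (AA.biUnion Bf).card := by
      apply card_le_card_of_injOn (fun A : ℕ => (-(A : ℤ)))
      · intro A hA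
        obtain ⟨F, hF, hA2⟩ := (mem_filter.1 hA).2
        exact mem_biUnion.2 ⟨F, hF, hA2⟩
      · intro a _ b _ hab
        simp only at hab
        omega
    have h4 : ((AA.biUnion Bf).card : ℝ) ≤ ∑ F ∈ AA, ((Bf F).card : ℝ) := by
      exact_mod_cast card_biUnion_le
    have h5 : ∑ F ∈ AA, ((Bf F).card : ℝ) ≤ ∑ _F ∈ AA, ε * X := sum_le_sum fun F hF => hB2 F hF
    rw [sum_const, nsmul_eq_mul] at h5
    have h6 : (AA.card : ℝ) * ε ≤ η := by
      have g1 : ε ≤ η / (AA.card + 1) := min_le_left _ _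
      have g2 : (0 : ℝ) ≤ AA.card := Nat.cast_nonneg _
      calc (AA.card : ℝ) * ε ≤ AA.card * (η / (AA.card + 1)) := mul_le_mul_of_nonneg_left g1 g2
        _ = η * (AA.card / (AA.card + 1)) := by ring
        _ ≤ η * 1 := mul_le_mul_of_nonneg_left (by rw [div_le_one (by positivity)]; linarith) hη.le
        _ = η := mul_one _
    have h7 : (Bad.card : ℝ) ≤ ((AA.biUnion Bf).card : ℝ) := by exact_mod_cast h3
    have h8 : (0 : ℝ) ≤ X := Nat.cast_nonneg _
    calc (Bad.card : ℝ) ≤ AA.card * (ε * X) := h7.trans (h4.trans h5)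
      _ = (AA.card * ε) * X := by ring
      _ ≤ η * X := mul_le_mul_of_nonneg_right h6 h8
  · intro A hA hAB F hF hFK
    have hFA : F ∈ AA := mem_powersetCard.2 ⟨hF, hFK⟩
    have hA' := mem_Icc.1 hA
    have ha : (-(A : ℤ)) ∈ Icc (-(X : ℤ)) (-1) := by
      rw [mem_Icc]
      constructor
      · have : (A : ℤ) ≤ X := by exact_mod_cast hA'.2
        linarith
      · have : (1 : ℤ) ≤ A := by exact_mod_cast hA'.1
        linarith
    have haB : (-(A : ℤ)) ∉ Bf F := fun hc => hAB (mem_filter.2 ⟨hA, F, hFA, hc⟩)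
    refine ⟨W.filter (fun J => P F X (-(A : ℤ)) J), filter_subset _ _, ?_, ?_⟩
    · have e0 := hB3 F hFA _ ha haB
      have e1 : ε ≤ 1 / 2 := min_le_right _ _
      have e2 : (0 : ℝ) ≤ W.card := Nat.cast_nonneg _
      have e3 : (W.card : ℝ) ≤ 2 * ((W.filter (fun J => P F X (-(A : ℤ)) J)).card : ℝ) := by nlinarith
      exact_mod_cast e3
    · intro J hJ
      have hJP := (mem_filter.1 hJ).2
      rw [hP] at hJP
      obtain ⟨n, n1, n2, n3, n4⟩ := hJP
      have e0 : (-((-(A : ℤ) : ℤ) : ℝ)) = (A : ℝ) := by push_cast; ring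
      rw [e0] at n1 n2
      -- the value of the polynomial
      have hval : ∀ t : ℕ, (((n + t : ℕ) : ℤ) ^ 2 + (-(A : ℤ))).natAbs =
          (((n : ℤ) + (t : ℤ)) ^ 2 - A).toNat := by
        intro t
        have hpos : (0 : ℤ) ≤ ((n : ℤ) + (t : ℕ)) ^ 2 - A := by
          have g4 : √(A : ℝ) ≤ n := by
            have : (0 : ℝ) ≤ J := Nat.cast_nonneg _
            linarith
          have g5 : (A : ℝ) ≤ (n : ℝ) ^ 2 := by
            rw [← Real.sqrt_le_left (Nat.cast_nonneg _)]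
            exact g4
          have g6 : (A : ℤ) ≤ (n : ℤ) ^ 2 := by exact_mod_cast g5
          have g7 : (0 : ℤ) ≤ (t : ℤ) := Int.natCast_nonneg _
          have g8 : (0 : ℤ) ≤ (n : ℤ) := Int.natCast_nonneg _
          nlinarith
        have e3 : ((n + t : ℕ) : ℤ) ^ 2 + (-(A : ℤ)) = ((n : ℤ) + (t : ℤ)) ^ 2 - A := by
          push_cast
          ring
        rw [e3]
        omega
      set S' := (F.image Int.toNat).filter
          (fun h => Nat.Prime (((n + h : ℕ) : ℤ) ^ 2 + (-(A : ℤ))).natAbs) with hS'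
      set e := S'.orderEmbOfFin rfl with he
      have hmem : ∀ i, e i ∈ S' := fun i => S'.orderEmbOfFin_mem rfl i
      have hrange : ∀ t ∈ S', ∃ i, e i = t := by
        intro t ht
        have : t ∈ Set.range e := by
          rw [he, Finset.range_orderEmbOfFin]
          exact ht
        exact this
      refine ⟨fun i => (e (Fin.castLE n4 i) : ℤ), ?_, ?_, n, n1, n2, ?_⟩
      · intro i j hij
        have h3 : e (Fin.castLE n4 i) < e (Fin.castLE n4 j) := e.strictMono (by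
          rw [Fin.lt_def] at hij ⊢
          exact hij)
        show ((e (Fin.castLE n4 i) : ℕ) : ℤ) < ((e (Fin.castLE n4 j) : ℕ) : ℤ)
        exact_mod_cast h3
      · intro i
        obtain ⟨f, hf, hfe⟩ := mem_image.1 (mem_filter.1 (hmem (Fin.castLE n4 i))).1
        show ((e (Fin.castLE n4 i) : ℕ) : ℤ) ∈ F
        rw [← hfe, Int.toNat_of_nonneg (hF0 F hFA f hf).1]
        exact hf
      · intro z hz0 hz1
        constructor
        · intro hzp
          have hz0' : ((e (Fin.castLE n4 0) : ℕ) : ℤ) ≤ z := hz0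
          have hz1' : z ≤ ((e (Fin.castLE n4 (Fin.last (k + 1))) : ℕ) : ℤ) := hz1
          obtain ⟨t, rfl⟩ : ∃ t : ℕ, z = t := ⟨z.toNat, by
            rw [Int.toNat_of_nonneg]
            have : (0 : ℤ) ≤ ((e (Fin.castLE n4 0) : ℕ) : ℤ) := Int.natCast_nonneg _
            linarith⟩
          have hz1n : t ≤ e (Fin.castLE n4 (Fin.last (k + 1))) := by exact_mod_cast hz1'
          rw [← hval t] at hzp
          have hltH : t < H := by
            have h3 := hsub F hFA (mem_filter.1 (hmem (Fin.castLE n4 (Fin.last (k + 1))))).1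
            rw [Finset.mem_range] at h3
            omega
          have htS : t ∈ S' := by
            by_cases htF : t ∈ F.image Int.toNat
            · exact mem_filter.2 ⟨htF, hzp⟩
            · exact absurd hzp (n3 t (mem_sdiff.2 ⟨Finset.mem_range.2 hltH, htF⟩))
          obtain ⟨j, hj⟩ := hrange t htS
          have hjl : j ≤ Fin.castLE n4 (Fin.last (k + 1)) := by
            rw [← e.le_iff_le, hj]
            exact hz1n
          have hjv : j.val < k + 2 := by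
            rw [Fin.le_def] at hjl
            simp only [Fin.val_castLE, Fin.val_last] at hjl
            omega
          refine ⟨⟨j.val, hjv⟩, ?_⟩
          have e4 : Fin.castLE n4 ⟨j.val, hjv⟩ = j := Fin.ext rfl
          simp only
          rw [e4, hj]
        · rintro ⟨i, rfl⟩
          simp only
          rw [← hval]
          exact (mem_filter.1 (hmem (Fin.castLE n4 i))).2

end Pool.Agent.N688.NC
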